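import Pool.Agent.Y209.Geo.PT
import Pool.Agent.Y209.HB.Tools

/-! The blow-up of the affine plane at finitely many points, as a subspace of a product. -/

namespace Pool.Agent.Y209.Geo

open Pool.Agent.Y209.HB

/-- homogeneous coordinates of an affine point -/
def hv (v : ℂ × ℂ) : Fin 3 → ℂ := ![1, v.1, v.2]

/-- equation of the line through `p` with direction `d` -/
def lineVec (p d : ℂ × ℂ) : Fin 3 → ℂ := ![d.1 * p.2 - d.2 * p.1, d.2, -d.1]

theorem lineVec_ne (p d : ℂ × ℂ) (hd : d ≠ 0) : lineVec p d ≠ 0 := by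
  intro h
  apply hd
  have h1 := congrFun h 1
  have h2 := congrFun h 2
  simp only [lineVec, Matrix.cons_val_one, Matrix.cons_val_zero, Pi.zero_apply, Matrix.cons_val,
    neg_eq_zero] at h1 h2
  exact Prod.ext h2 h1

theorem hv_lineVec (q p d : ℂ × ℂ) : hv q ⬝ᵥ lineVec p d =
    (q.1 - p.1) * d.2 - (q.2 - p.2) * d.1 := by
  simp only [hv, lineVec, dotProduct, Fin.sum_univ_three, Matrix.cons_val_zero,
    Matrix.cons_val_one, Matrix.cons_val]
  ring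

/-- the line through `p` with direction `d` -/
noncomputable def mkL (p d : ℂ × ℂ) (hd : d ≠ 0) : P2 :=
  Projectivization.mk ℂ (lineVec p d) (lineVec_ne p d hd)

theorem mkL_cont {T : Type*} [TopologicalSpace T] (p : ℂ × ℂ) (d : T → ℂ × ℂ) (hd : Continuous d)
    (h : ∀ t, d t ≠ 0) : Continuous fun t => mkL p (d t) (h t) := by
  have : Continuous fun t => (⟨lineVec p (d t), lineVec_ne p (d t) (h t)⟩ :
      {v : Fin 3 → ℂ // v ≠ 0}) := by
    apply Continuous.subtype_mk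
    unfold lineVec
    fun_prop
  exact qm_cont.comp this

theorem mkL_smul (p d : ℂ × ℂ) (hd : d ≠ 0) (c : ℂ) (hcd : c • d ≠ 0) :
    mkL p (c • d) hcd = mkL p d hd := by
  rw [mkL, mkL, Projectivization.mk_eq_mk_iff']
  refine ⟨c, ?_⟩
  funext i
  fin_cases i
  · simp [lineVec]; ring
  · simp [lineVec]
  · simp [lineVec]

theorem dt_hv_mkL (q p d : ℂ × ℂ) (hd : d ≠ 0) : dt (hv q) (mkL p d hd) = 0 ↔
    (q.1 - p.1) * d.2 = (q.2 - p.2) * d.1 := by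
  rw [mkL, dt_mk_eq, hv_lineVec, sub_eq_zero]

theorem dt_hv_mkL_self (p d : ℂ × ℂ) (hd : d ≠ 0) : dt (hv p) (mkL p d hd) = 0 := by
  rw [dt_hv_mkL]; simp

/-- coordinate vectors -/
def e1 : Fin 3 → ℂ := ![0, 1, 0]
def e2 : Fin 3 → ℂ := ![0, 0, 1]

/-- the slope of a line -/
noncomputable def sl (ℓ : P2) : ℂ := -(dt e1 ℓ / dt e2 ℓ)

/-- the inverse slope -/
noncomputable def isl (ℓ : P2) : ℂ := -(dt e2 ℓ / dt e1 ℓ)

theorem e1_lineVec (p d : ℂ × ℂ) : e1 ⬝ᵥ lineVec p d = d.2 := by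
  simp [e1, lineVec, dotProduct, Fin.sum_univ_three]

theorem e2_lineVec (p d : ℂ × ℂ) : e2 ⬝ᵥ lineVec p d = -d.1 := by
  simp [e2, lineVec, dotProduct, Fin.sum_univ_three]

theorem sl_mkL (p d : ℂ × ℂ) (hd : d ≠ 0) : sl (mkL p d hd) = d.2 / d.1 := by
  rw [sl, mkL, dt_ratio, e1_lineVec, e2_lineVec, div_neg, neg_neg]

theorem isl_mkL (p d : ℂ × ℂ) (hd : d ≠ 0) : isl (mkL p d hd) = d.1 / d.2 := by
  rw [isl, mkL, dt_ratio, e1_lineVec, e2_lineVec, neg_div, neg_neg]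

theorem e2_mkL (p d : ℂ × ℂ) (hd : d ≠ 0) : dt e2 (mkL p d hd) ≠ 0 ↔ d.1 ≠ 0 := by
  rw [mkL, dt_mk, e2_lineVec, neg_ne_zero]

theorem e1_mkL (p d : ℂ × ℂ) (hd : d ≠ 0) : dt e1 (mkL p d hd) ≠ 0 ↔ d.2 ≠ 0 := by
  rw [mkL, dt_mk, e1_lineVec]

theorem dt_hv_eq (q : ℂ × ℂ) (ℓ : P2) : dt (hv q) ℓ = ℓ.rep 0 + q.1 * ℓ.rep 1 + q.2 * ℓ.rep 2 := by
  simp [dt, hv, dotProduct, Fin.sum_univ_three]

theorem dt_e1_eq (ℓ : P2) : dt e1 ℓ = ℓ.rep 1 := by
  simp [dt, e1, dotProduct, Fin.sum_univ_three]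

theorem dt_e2_eq (ℓ : P2) : dt e2 ℓ = ℓ.rep 2 := by
  simp [dt, e2, dotProduct, Fin.sum_univ_three]

theorem one_ne (s : ℂ) : ((1, s) : ℂ × ℂ) ≠ 0 := fun h => one_ne_zero (congrArg Prod.fst h)

theorem ne_one (s : ℂ) : ((s, 1) : ℂ × ℂ) ≠ 0 := fun h => one_ne_zero (congrArg Prod.snd h)

theorem eq_mkL_sl {p : ℂ × ℂ} {ℓ : P2} (h : dt (hv p) ℓ = 0) (h2 : dt e2 ℓ ≠ 0) :
    ℓ = mkL p (1, sl ℓ) (one_ne _) := by
  conv_lhs => rw [← ℓ.mk_rep]
  rw [mkL, Projectivization.mk_eq_mk_iff']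
  refine ⟨-ℓ.rep 2, ?_⟩
  rw [dt_hv_eq] at h
  rw [dt_e2_eq] at h2
  have hs : ℓ.rep 2 * sl ℓ = -ℓ.rep 1 := by
    rw [sl, dt_e1_eq, dt_e2_eq]
    field_simp
  funext i
  fin_cases i
  · simp only [lineVec, Fin.zero_eta, Pi.smul_apply, Matrix.cons_val_zero, smul_eq_mul]
    linear_combination (-1 : ℂ) * h + p.1 * hs
  · simp only [lineVec, Fin.mk_one, Pi.smul_apply, Matrix.cons_val_one, Matrix.cons_val_zero,
      smul_eq_mul]
    linear_combination (-1 : ℂ) * hs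
  · simp [lineVec]

theorem eq_mkL_isl {p : ℂ × ℂ} {ℓ : P2} (h : dt (hv p) ℓ = 0) (h2 : dt e1 ℓ ≠ 0) :
    ℓ = mkL p (isl ℓ, 1) (ne_one _) := by
  conv_lhs => rw [← ℓ.mk_rep]
  rw [mkL, Projectivization.mk_eq_mk_iff']
  refine ⟨ℓ.rep 1, ?_⟩
  rw [dt_hv_eq] at h
  rw [dt_e1_eq] at h2
  have hs : ℓ.rep 1 * isl ℓ = -ℓ.rep 2 := by
    rw [isl, dt_e1_eq, dt_e2_eq]
    field_simp
  funext i
  fin_cases i
  · simp only [lineVec, Fin.zero_eta, Pi.smul_apply, Matrix.cons_val_zero, smul_eq_mul]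
    linear_combination (-1 : ℂ) * h + p.2 * hs
  · simp [lineVec]
  · simp only [lineVec, Fin.reduceFinMk, Pi.smul_apply, Matrix.cons_val, smul_eq_mul]
    linear_combination (-1 : ℂ) * hs

theorem eq_mkL_of_ne {p q : ℂ × ℂ} {ℓ : P2} (h : dt (hv p) ℓ = 0) (h' : dt (hv q) ℓ = 0)
    (hpq : q - p ≠ 0) : ℓ = mkL p (q - p) hpq := by
  refine eq_of_dt (w := hv p) (w' := hv q) ?_ h h' (dt_hv_mkL_self _ _ _) ?_
  · rw [LinearIndependent.pair_iff]
    intro a b hab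
    have h0 := congrFun hab 0
    have h1 := congrFun hab 1
    have h2 := congrFun hab 2
    simp only [hv, Pi.add_apply, Pi.smul_apply, Matrix.cons_val_zero, smul_eq_mul, mul_one,
      Pi.zero_apply, Matrix.cons_val_one, Matrix.cons_val] at h0 h1 h2
    have hb : b = -a := by linear_combination h0
    subst hb
    have e1 : a * (q.1 - p.1) = 0 := by linear_combination (-1 : ℂ) * h1
    have e2 : a * (q.2 - p.2) = 0 := by linear_combination (-1 : ℂ) * h2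
    by_cases ha : a = 0
    · simp [ha]
    · exfalso
      apply hpq
      exact Prod.ext ((mul_eq_zero.mp e1).resolve_left ha) ((mul_eq_zero.mp e2).resolve_left ha)
  · rw [dt_hv_mkL]
    simp only [Prod.fst_sub, Prod.snd_sub]
    ring

variable {J : Type} (p : J → ℂ × ℂ)

/-- the blow-up of the affine plane at the points `p j` -/
abbrev Bm : Type := {b : (ℂ × ℂ) × (J → P2) //
  ∀ j, dt (hv (p j)) (b.2 j) = 0 ∧ dt (hv b.1) (b.2 j) = 0}

variable {p}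

/-- points of the blow-up -/
noncomputable def mkB (v : ℂ × ℂ) (d : J → ℂ × ℂ) (hd : ∀ j, d j ≠ 0)
    (h : ∀ j, (v.1 - (p j).1) * (d j).2 = (v.2 - (p j).2) * (d j).1) : Bm p :=
  ⟨(v, fun j => mkL (p j) (d j) (hd j)), fun j => ⟨dt_hv_mkL_self (p j) (d j) (hd j),
    (dt_hv_mkL v (p j) (d j) (hd j)).mpr (h j)⟩⟩

theorem mkB_cont {T : Type*} [TopologicalSpace T] (v : T → ℂ × ℂ) (d : T → J → ℂ × ℂ)
    (hv : Continuous v) (hd : ∀ j, Continuous fun t => d t j) (h0 : ∀ t j, d t j ≠ 0)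
    (h : ∀ t j, ((v t).1 - (p j).1) * (d t j).2 = ((v t).2 - (p j).2) * (d t j).1) :
    Continuous fun t => mkB (p := p) (v t) (d t) (h0 t) (h t) := by
  apply Continuous.subtype_mk
  refine hv.prodMk (continuous_pi fun j => ?_)
  exact mkL_cont (p j) (fun t => d t j) (hd j) (fun t => h0 t j)

/-- the projection to the plane -/
def pr : C(Bm p, ℂ × ℂ) := ⟨fun b => b.1.1, by fun_prop⟩

theorem slope_rel (b : Bm p) (j : J) (h : dt e2 (b.1.2 j) ≠ 0) :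
    b.1.1.2 - (p j).2 = sl (b.1.2 j) * (b.1.1.1 - (p j).1) := by
  have h1 := (b.2 j).1
  have h2 := (b.2 j).2
  rw [dt_hv_eq] at h1 h2
  rw [dt_e2_eq] at h
  rw [sl, dt_e1_eq, dt_e2_eq]
  field_simp
  linear_combination h2 - h1

theorem islope_rel (b : Bm p) (j : J) (h : dt e1 (b.1.2 j) ≠ 0) :
    b.1.1.1 - (p j).1 = isl (b.1.2 j) * (b.1.1.2 - (p j).2) := by
  have h1 := (b.2 j).1
  have h2 := (b.2 j).2
  rw [dt_hv_eq] at h1 h2
  rw [dt_e1_eq] at h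
  rw [isl, dt_e1_eq, dt_e2_eq]
  field_simp
  linear_combination h2 - h1

/-- extensionality for points of the blow-up -/
theorem Bm_ext (b : Bm p) (v : ℂ × ℂ) (d : J → ℂ × ℂ) (hd : ∀ j, d j ≠ 0)
    (h : ∀ j, (v.1 - (p j).1) * (d j).2 = (v.2 - (p j).2) * (d j).1) (hv' : b.1.1 = v)
    (hj : ∀ j, b.1.2 j = mkL (p j) (d j) (hd j)) : mkB (p := p) v d hd h = b := by
  apply Subtype.ext
  apply Prod.ext
  · exact hv'.symm
  · funext j
    exact (hj j).symm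

theorem sl_contOn (j : J) : ContinuousOn (fun b : Bm p => sl (b.1.2 j))
    {b | dt e2 (b.1.2 j) ≠ 0} := by
  have h := (continuousOn_ratio e1 e2).neg
  refine h.comp (Continuous.continuousOn ?_) ?_
  · fun_prop
  · intro b hb
    exact hb

theorem isl_contOn (j : J) : ContinuousOn (fun b : Bm p => isl (b.1.2 j))
    {b | dt e1 (b.1.2 j) ≠ 0} := by
  have h := (continuousOn_ratio e2 e1).neg
  refine h.comp (Continuous.continuousOn ?_) ?_
  · fun_prop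
  · intro b hb
    exact hb

theorem V0_open (j : J) : IsOpen {b : Bm p | dt e2 (b.1.2 j) ≠ 0} :=
  (isOpen_dt e2).preimage (f := fun b : Bm p => b.1.2 j) (by fun_prop)

theorem V1_open (j : J) : IsOpen {b : Bm p | dt e1 (b.1.2 j) ≠ 0} :=
  (isOpen_dt e1).preimage (f := fun b : Bm p => b.1.2 j) (by fun_prop)

theorem V01 (b : Bm p) (j : J) : dt e2 (b.1.2 j) ≠ 0 ∨ dt e1 (b.1.2 j) ≠ 0 := by
  by_contra h
  push Not at h
  have h1 := (b.2 j).1
  rw [dt_hv_eq] at h1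
  rw [dt_e1_eq, dt_e2_eq] at h
  apply (b.1.2 j).rep_nonzero
  funext i
  fin_cases i
  · rw [h.1, h.2] at h1
    simpa using h1
  · exact h.2
  · exact h.1

end Pool.Agent.Y209.Geo
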