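import Pool.Agent.Y209.Geo.Tube2

/-! Rational acyclicity of complements of lines in blow-ups of the affine plane. -/

namespace Pool.Agent.Y209.Geo

open Pool.Agent.Y209.HB

theorem exists_eps {ι : Type} [Finite ι] (f : ι → ℝ) : ∃ ε : ℝ, 0 < ε ∧ ∀ i, 0 < f i → ε ≤ f i := by
  classical
  have := Fintype.ofFinite ι
  by_cases h : (Finset.univ.filter fun i => 0 < f i).Nonempty
  · obtain ⟨i, hi, hmin⟩ := Finset.exists_min_image _ f h
    rw [Finset.mem_filter] at hi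
    refine ⟨f i, hi.2, fun k hk => hmin k ?_⟩
    rw [Finset.mem_filter]
    exact ⟨Finset.mem_univ _, hk⟩
  · refine ⟨1, one_pos, fun k hk => ?_⟩
    exfalso
    apply h
    exact ⟨k, Finset.mem_filter.mpr ⟨Finset.mem_univ _, hk⟩⟩

theorem exists_bound {ι : Type} [Finite ι] (f : ι → ℝ) : ∃ K : ℝ, 0 < K ∧ ∀ i, f i ≤ K := by
  obtain ⟨K, hK⟩ := (Set.finite_range f).bddAbove
  exact ⟨max K 1, by positivity, fun i => (hK ⟨i, rfl⟩).trans (le_max_left _ _)⟩

variable {A J : Type} [Fintype A] [Fintype J] [DecidableEq J] {p : J → ℂ × ℂ}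

omit [DecidableEq J] in
theorem exists_Sep (hp : Function.Injective p) : ∃ r, Sep p r := by
  obtain ⟨ε, h0, h1⟩ := exists_eps (fun q : J × J => ‖p q.1 - p q.2‖)
  refine ⟨ε / 2, by positivity, fun j k hjk => ?_⟩
  have h2 := h1 (j, k) (norm_pos_iff.mpr (sub_ne_zero.mpr fun h => hjk (hp h)))
  simp only at h2
  linarith

omit [Fintype J] [DecidableEq J] in
theorem sec_rel (p : J → ℂ × ℂ) (v : ℂ × ℂ) (j : J) :
    (v.1 - (p j).1) * (v - p j).2 = (v.2 - (p j).2) * (v - p j).1 := by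
  simp only [Prod.snd_sub, Prod.fst_sub]; ring

/-- away from the points, the blow-up is the plane -/
noncomputable def sec (p : J → ℂ × ℂ) : C({v : ℂ × ℂ | ∀ j, v ≠ p j}, Bm p) :=
  ⟨fun v => mkB v.1 (fun j => v.1 - p j) (fun j => sub_ne_zero.mpr (v.2 j)) (sec_rel p v.1), by
    refine mkB_cont (fun v : {v : ℂ × ℂ | ∀ j, v ≠ p j} => v.1) (fun v j => v.1 - p j)
      (by fun_prop) (fun j => by fun_prop) _ _⟩

/-- homology classes of the blow-up come from neighbourhoods of the exceptional curves -/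
theorem from_NE {r : ℝ} (h : Sep p r) {n : ℕ} {z : Sing (Bm p) (n + 1) →₀ ℚ}
    (hz : z ∈ Cyc (Bm p) (n + 1)) :
    ∃ v ∈ sp (⋃ j, NE p j r) (n + 1), v ∈ Cyc (Bm p) (n + 1) ∧ z - v ∈ Bdy (Bm p) (n + 1) := by
  have hP : IsOpen {v : ℂ × ℂ | ∀ j, v ≠ p j} := by
    have : {v : ℂ × ℂ | ∀ j, v ≠ p j} = ⋂ j, {p j}ᶜ := by
      ext v; simp
    rw [this]
    exact isOpen_iInter_of_finite fun j => isOpen_compl_singleton
  have hN : IsOpen {v : ℂ × ℂ | ∃ j, ‖v - p j‖ < r} := by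
    have : {v : ℂ × ℂ | ∃ j, ‖v - p j‖ < r} = ⋃ j, {v | ‖v - p j‖ < r} := by
      ext v; simp
    rw [this]
    exact isOpen_iUnion fun j => isOpen_lt (by fun_prop) continuous_const
  obtain ⟨v, hv, hvc, hzv⟩ := comparison hP hN (by
    intro v
    by_cases hv : ∀ j, v ≠ p j
    · exact Or.inl hv
    · right
      push Not at hv
      obtain ⟨j, rfl⟩ := hv
      exact ⟨j, by simpa using h.1⟩) pr (sec p) (fun _ => rfl) (by
    intro b hb
    refine Bm_ext b _ _ (fun j => sub_ne_zero.mpr (hb j)) (sec_rel p _) rfl ?_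
    intro j
    exact eq_mkL_of_ne (b.2 j).1 (b.2 j).2 _) (Ac_CC n) hz
  refine ⟨v, ?_, hvc, hzv⟩
  convert hv using 1
  congr 1
  ext b
  simp [NE, pr]

theorem Bm_one {r : ℝ} (h : Sep p r) : Ac (Bm p) 1 := by
  intro z hz
  obtain ⟨v, hv, hvc, hzv⟩ := from_NE h hz
  have h1 := AcO_iUnion (fun j => NE_open j r) (NE_disj h) (fun j => NE_one h j) v hv hvc
  have := Submodule.add_mem _ hzv (Bd_le_Bdy _ _ h1)
  rwa [sub_add_cancel] at this

theorem Bm_three {r : ℝ} (h : Sep p r) (n : ℕ) : Ac (Bm p) (n + 3) := by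
  intro z hz
  obtain ⟨v, hv, hvc, hzv⟩ := from_NE h hz
  have h1 := AcO_iUnion (fun j => NE_open j r) (NE_disj h) (fun j => NE_three h j n) v hv hvc
  have := Submodule.add_mem _ hzv (Bd_le_Bdy _ _ h1)
  rwa [sub_add_cancel] at this

theorem Bm_two {r : ℝ} (h : Sep p r) {R : ℂ} {c0 c1 : Sing ℂ 2 →₀ ℚ} (hR : R ≠ 0)
    (h0 : bdry ℂ 1 c0 = push (crl R) 1 g0) (h1 : bdry ℂ 1 c1 = - push (cri R) 1 g0)
    (z : Sing (Bm p) 2 →₀ ℚ) (hz : z ∈ Cyc (Bm p) 2) :
    ∃ c : J → ℚ, z - ∑ j, c j • mu h j c0 c1 ∈ Bdy (Bm p) 2 := by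
  obtain ⟨v, hv, hvc, hzv⟩ := from_NE h hz
  have h2 := fun j => NE_two h j hR h0 h1 (res_mem (NE p j r) v)
    (res_Cyc (fun j => NE_open j r) (NE_disj h) hv hvc j)
  refine ⟨fun j => (h2 j).choose, ?_⟩
  have h3 : v - ∑ j, (h2 j).choose • mu h j c0 c1 ∈ Bdy (Bm p) 2 := by
    have e0 : v - ∑ j, (h2 j).choose • mu h j c0 c1 =
        ∑ j, (res (NE p j r) 2 v - (h2 j).choose • mu h j c0 c1) := by
      rw [Finset.sum_sub_distrib, ← sum_res (fun j => NE_open j r) (NE_disj h) hv]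
    rw [e0]
    apply Submodule.sum_mem
    intro j _
    exact Bd_le_Bdy _ _ (h2 j).choose_spec
  have := Submodule.add_mem _ hzv h3
  have e : z - v + (v - ∑ j, (h2 j).choose • mu h j c0 c1) =
      z - ∑ j, (h2 j).choose • mu h j c0 c1 := by abel
  rwa [e] at this

/-- Main theorem: lines in the blown up plane, with invertible incidence matrix. -/
theorem acyclic (hp : Function.Injective p) (a : A → Ln p)
    (hab : ∀ x y, x ≠ y → ((a x).m = (a y).m ∧ (a x).c ≠ (a y).c) ∨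
      ((a x).m ≠ (a y).m ∧ ∃ j, j ∈ (a x).I ∧ j ∈ (a y).I))
    (Minj : ∀ c : J → ℚ, (∀ x, ∑ j, c j * (if j ∈ (a x).I then 1 else 0) = 0) → c = 0)
    (Msurj : ∀ k : A → ℚ, ∃ c : J → ℚ, ∀ x, ∑ j, c j * (if j ∈ (a x).I then 1 else 0) = k x)
    (n : ℕ) : Ac ↥(⋃ x, (a x).L)ᶜ (n + 1) := by
  obtain ⟨r, h⟩ := exists_Sep hp
  obtain ⟨e1, e1p, he1⟩ := exists_eps (fun q : A × J =>
    ‖(p q.2).2 - ((a q.1).m * (p q.2).1 + (a q.1).c)‖)
  obtain ⟨e2, e2p, he2⟩ := exists_eps (fun q : A × A => ‖(a q.1).m - (a q.2).m‖)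
  obtain ⟨e3, e3p, he3⟩ := exists_eps (fun q : A × A => ‖(a q.1).c - (a q.2).c‖)
  obtain ⟨K, Kp, hK⟩ := exists_bound (fun x : A => ‖(a x).m‖)
  set ε : ℝ := min e1 (min (e2 / 2) (e3 / 2)) with hε
  have εp : 0 < ε := by positivity
  have ε1 : ε ≤ e1 := min_le_left _ _
  have ε2 : ε ≤ e2 / 2 := (min_le_right _ _).trans (min_le_left _ _)
  have ε3 : ε ≤ e3 / 2 := (min_le_right _ _).trans (min_le_right _ _)
  have hSm : ∀ x, (a x).Sm ε := by
    intro x
    refine ⟨εp, fun j hj => ε1.trans (he1 (x, j) ?_)⟩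
    rw [norm_pos_iff, sub_ne_zero]
    intro h1
    exact hj (((a x).hI j).mpr h1)
  have hdisj : ∀ x y, x ≠ y → Disjoint ((a x).N ε) ((a y).N ε) := by
    intro x y hxy
    rw [Set.disjoint_iff]
    rintro b ⟨hx, hy⟩
    rcases hab x y hxy with ⟨h1, h2⟩ | ⟨h1, j, hjx, hjy⟩
    · have u1 := (a x).N_uf hp hx
      have u2 := (a y).N_uf hp hy
      have h3 := he3 (x, y) (norm_pos_iff.mpr (sub_ne_zero.mpr h2))
      have h4 : (a x).c - (a y).c = (a y).uf b - (a x).uf b := by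
        unfold Ln.uf
        rw [h1]; ring
      simp only at h3
      rw [h4] at h3
      have h5 := norm_sub_le ((a y).uf b) ((a x).uf b)
      linarith
    · have u1 := (a x).N_sl hp hx hjx
      have u2 := (a y).N_sl hp hy hjy
      have h3 := he2 (x, y) (norm_pos_iff.mpr (sub_ne_zero.mpr h1))
      have h4 : (a x).m - (a y).m = (sl (b.1.2 j) - (a y).m) - (sl (b.1.2 j) - (a x).m) := by ring
      simp only at h3
      rw [h4] at h3
      have h5 := norm_sub_le (sl (b.1.2 j) - (a y).m) (sl (b.1.2 j) - (a x).m)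
      linarith
  -- the spheres
  set R : ℝ := K + 1 with hR
  have hRp : 0 < R := by positivity
  have hR0 : (R : ℂ) ≠ 0 := by exact_mod_cast hRp.ne'
  obtain ⟨c0, hc0⟩ := exists_c0 (crl (R : ℂ))
  obtain ⟨c1', hc1', hc1''⟩ := exists_disc (cri (R : ℂ)) 0 (ρ := 1 / K) (by positivity) (by
    intro z
    change ‖(R : ℂ)⁻¹ * ((z⁻¹ : Circle) : ℂ) - 0‖ < 1 / K
    rw [sub_zero, norm_mul, Circle.norm_coe, mul_one, norm_inv, Complex.norm_real,
      Real.norm_eq_abs, abs_of_pos hRp, one_div]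
    exact inv_strictAnti₀ Kp (by linarith))
  have hc1 : bdry ℂ 1 (-c1') = - push (cri (R : ℂ)) 1 g0 := by rw [map_neg, hc1'']
  have hc1s : -c1' ∈ sp {s : ℂ | ‖s - 0‖ < 1 / K} 2 := Submodule.neg_mem _ hc1'
  have tubes : Tubes (fun x => (a x).L) (fun x => (a x).N ε) (fun x => (a x).gg hp (hSm x)) :=
    { hL := fun x => (a x).L_closed
      hN := fun x => (a x).N_open ε
      hLN := fun x => (a x).L_sub_N εp
      hd := hdisj
      aN := fun x n => (a x).AcN hp (hSm x) n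
      aT := fun x n => (a x).AcT hp (hSm x) n
      sT := fun x => (a x).spT hp (hSm x)
      nT := fun x => (a x).gg_ne hp (hSm x) }
  apply Ac_of_AcO
  refine remove (M := fun j x => if j ∈ (a x).I then 1 else 0) tubes (Bm_one h) (Bm_three h)
    (μ := fun j => mu h j c0 (-c1')) (fun j => mu_Cyc h j hR0 hc0 hc1)
    (fun z hz => Bm_two h hR0 hc0 hc1 z hz) ?_ Minj Msurj n
  intro j x
  by_cases hj : j ∈ (a x).I
  · simp only [if_pos hj]
    exact (a x).idx_one h hp (hSm x) hj Kp (hK x) (by linarith [hK x]) hc0 hc1s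
  · simp only [if_neg hj]
    exact (a x).idx_zero h hj

end Pool.Agent.Y209.Geo
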