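import Mathlib

/-! The topology of the complex projective plane. -/

namespace Pool.Agent.Y209.Geo

open scoped LinearAlgebra.Projectivization

/-- the complex projective plane -/
abbrev P2 : Type := ℙ ℂ (Fin 3 → ℂ)

/-- the quotient topology on the complex projective plane -/
noncomputable instance P2.topology : TopologicalSpace P2 :=
  TopologicalSpace.coinduced
    (fun v : {v : Fin 3 → ℂ // v ≠ 0} => Projectivization.mk ℂ v.1 v.2) inferInstance

/-- the quotient map -/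
noncomputable def qm : {v : Fin 3 → ℂ // v ≠ 0} → P2 := fun v => Projectivization.mk ℂ v.1 v.2

theorem qm_cont : Continuous qm := continuous_coinduced_rng

theorem qm_surj : Function.Surjective qm := by
  intro ℓ
  exact ⟨⟨ℓ.rep, ℓ.rep_nonzero⟩, ℓ.mk_rep⟩

theorem isOpen_iff (s : Set P2) : IsOpen s ↔ IsOpen (qm ⁻¹' s) := isOpen_coinduced

theorem qm_open : IsOpenMap qm := by
  intro U hU
  rw [isOpen_iff]
  have h : qm ⁻¹' (qm '' U) = ⋃ c : ℂˣ, (fun v : {v : Fin 3 → ℂ // v ≠ 0} =>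
      (⟨(c : ℂ) • v.1, smul_ne_zero c.ne_zero v.2⟩ : {v : Fin 3 → ℂ // v ≠ 0})) ⁻¹' U := by
    ext v
    simp only [Set.mem_preimage, Set.mem_image, Set.mem_iUnion]
    constructor
    · rintro ⟨w, hw, h⟩
      obtain ⟨c, hc⟩ := (Projectivization.mk_eq_mk_iff ℂ _ _ w.2 v.2).mp h
      refine ⟨c, ?_⟩
      have : (⟨(c : ℂ) • v.1, smul_ne_zero c.ne_zero v.2⟩ : {v : Fin 3 → ℂ // v ≠ 0}) = w :=
        Subtype.ext hc
      rw [this]; exact hw
    · rintro ⟨c, hc⟩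
      refine ⟨_, hc, ?_⟩
      exact (Projectivization.mk_eq_mk_iff ℂ _ _ _ v.2).mpr ⟨c, rfl⟩
  rw [h]
  apply isOpen_iUnion
  intro c
  exact hU.preimage (by fun_prop)

theorem continuousAt_iff {Y : Type*} [TopologicalSpace Y] (f : P2 → Y)
    (v : {v : Fin 3 → ℂ // v ≠ 0}) : ContinuousAt f (qm v) ↔ ContinuousAt (f ∘ qm) v := by
  constructor
  · intro h
    exact h.comp qm_cont.continuousAt
  · intro h
    unfold ContinuousAt at *
    have : nhds (qm v) = Filter.map qm (nhds v) :=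
      le_antisymm (qm_open.nhds_le v) qm_cont.continuousAt
    rw [this, Filter.tendsto_map'_iff]
    exact h

/-- linear forms on representatives -/
theorem rep_mk (v : Fin 3 → ℂ) (hv : v ≠ 0) :
    ∃ c : ℂ, c ≠ 0 ∧ (Projectivization.mk ℂ v hv).rep = c • v := by
  obtain ⟨a, ha⟩ := Projectivization.exists_smul_eq_mk_rep ℂ v hv
  exact ⟨a, a.ne_zero, ha.symm⟩

/-- the dot product with the chosen representative -/
noncomputable def dt (w : Fin 3 → ℂ) (ℓ : P2) : ℂ := w ⬝ᵥ ℓ.rep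

theorem dt_mk (w v : Fin 3 → ℂ) (hv : v ≠ 0) :
    dt w (Projectivization.mk ℂ v hv) ≠ 0 ↔ w ⬝ᵥ v ≠ 0 := by
  obtain ⟨c, hc, h⟩ := rep_mk v hv
  rw [dt, h, dotProduct_smul, smul_eq_mul]
  simp [hc]

theorem dt_mk_eq (w v : Fin 3 → ℂ) (hv : v ≠ 0) :
    dt w (Projectivization.mk ℂ v hv) = 0 ↔ w ⬝ᵥ v = 0 := by
  have := dt_mk w v hv
  tauto

theorem dt_ratio (w w' v : Fin 3 → ℂ) (hv : v ≠ 0) :
    dt w (Projectivization.mk ℂ v hv) / dt w' (Projectivization.mk ℂ v hv) =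
      (w ⬝ᵥ v) / (w' ⬝ᵥ v) := by
  obtain ⟨c, hc, h⟩ := rep_mk v hv
  rw [dt, dt, h, dotProduct_smul, dotProduct_smul, smul_eq_mul, smul_eq_mul,
    mul_div_mul_left _ _ hc]

theorem orthogonal_iff_dt (w : Fin 3 → ℂ) (hw : w ≠ 0) (ℓ : P2) :
    Projectivization.orthogonal (Projectivization.mk ℂ w hw) ℓ ↔ dt w ℓ = 0 := by
  refine Projectivization.ind (fun v hv => ?_) ℓ
  rw [Projectivization.orthogonal_mk, dt_mk_eq]

theorem dot_cont (w : Fin 3 → ℂ) : Continuous fun v : {v : Fin 3 → ℂ // v ≠ 0} => w ⬝ᵥ v.1 :=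
  continuous_finsetSum _ fun i _ =>
    continuous_const.mul ((continuous_apply i).comp continuous_subtype_val)

theorem isOpen_dt (w : Fin 3 → ℂ) : IsOpen {ℓ : P2 | dt w ℓ ≠ 0} := by
  rw [isOpen_iff]
  have : qm ⁻¹' {ℓ : P2 | dt w ℓ ≠ 0} = {v | w ⬝ᵥ v.1 ≠ 0} := by
    ext v
    exact dt_mk w v.1 v.2
  rw [this]
  exact isOpen_ne_fun (dot_cont w) continuous_const

theorem continuousOn_ratio (w w' : Fin 3 → ℂ) :
    ContinuousOn (fun ℓ : P2 => dt w ℓ / dt w' ℓ) {ℓ : P2 | dt w' ℓ ≠ 0} := by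
  intro ℓ hℓ
  apply ContinuousAt.continuousWithinAt
  obtain ⟨v, rfl⟩ := qm_surj ℓ
  rw [continuousAt_iff]
  have h : (fun ℓ : P2 => dt w ℓ / dt w' ℓ) ∘ qm = fun v => (w ⬝ᵥ v.1) / (w' ⬝ᵥ v.1) := by
    funext v
    exact dt_ratio w w' v.1 v.2
  rw [h]
  apply ContinuousAt.div
  · exact (dot_cont w).continuousAt
  · exact (dot_cont w').continuousAt
  · exact (dt_mk w' v.1 v.2).mp hℓ

/-- two lines through two independent conditions are equal -/
theorem eq_of_dt {w w' : Fin 3 → ℂ} (h : LinearIndependent ℂ ![w, w']) {ℓ ℓ' : P2}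
    (h1 : dt w ℓ = 0) (h2 : dt w' ℓ = 0) (h1' : dt w ℓ' = 0) (h2' : dt w' ℓ' = 0) : ℓ = ℓ' := by
  have hc : crossProduct w w' ≠ 0 := by
    rw [crossProduct_ne_zero_iff_linearIndependent]
    exact h
  -- both are multiples of the cross product
  have key : ∀ v : Fin 3 → ℂ, w ⬝ᵥ v = 0 → w' ⬝ᵥ v = 0 → crossProduct (crossProduct w w') v = 0 := by
    intro v e1 e2
    rw [cross_cross_eq_smul_sub_smul]
    rw [e1, e2]
    simp
  have k1 := key ℓ.rep h1 h2
  have k2 := key ℓ'.rep h1' h2'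
  rw [← ℓ.mk_rep, ← ℓ'.mk_rep]
  have e1 := (Projectivization.mk_eq_mk_iff_crossProduct_eq_zero hc ℓ.rep_nonzero).mpr k1
  have e2 := (Projectivization.mk_eq_mk_iff_crossProduct_eq_zero hc ℓ'.rep_nonzero).mpr k2
  rw [← e1, ← e2]

end Pool.Agent.Y209.Geo
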