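import Pool.Agent.Y209.Geo.Bm

/-! Neighbourhoods of the exceptional curves. -/

namespace Pool.Agent.Y209.Geo

open Pool.Agent.Y209.HB

variable {J : Type} [DecidableEq J] {p : J → ℂ × ℂ}

/-- neighbourhood of an exceptional curve -/
def NE (p : J → ℂ × ℂ) (j : J) (r : ℝ) : Set (Bm p) := {b | ‖b.1.1 - p j‖ < r}

/-- first chart -/
def O0 (p : J → ℂ × ℂ) (j : J) (r : ℝ) : Set (Bm p) := NE p j r ∩ {b | dt e2 (b.1.2 j) ≠ 0}

/-- second chart -/
def O1 (p : J → ℂ × ℂ) (j : J) (r : ℝ) : Set (Bm p) := NE p j r ∩ {b | dt e1 (b.1.2 j) ≠ 0}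

omit [DecidableEq J] in
theorem NE_open (j : J) (r : ℝ) : IsOpen (NE p j r) :=
  isOpen_lt (by fun_prop) continuous_const

omit [DecidableEq J] in
theorem O0_open (j : J) (r : ℝ) : IsOpen (O0 p j r) := (NE_open j r).inter (V0_open j)

omit [DecidableEq J] in
theorem O1_open (j : J) (r : ℝ) : IsOpen (O1 p j r) := (NE_open j r).inter (V1_open j)

/-- the parameter domain -/
def Dr (r : ℝ) : Set (ℂ × ℂ) := {q | ‖q.1‖ < r ∧ ‖q.1 * q.2‖ < r}

theorem norm_pair (a b : ℂ) (r : ℝ) : ‖((a, b) : ℂ × ℂ)‖ < r ↔ ‖a‖ < r ∧ ‖b‖ < r := by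
  rw [Prod.norm_def]
  exact max_lt_iff

/-- separation of the points -/
def Sep (p : J → ℂ × ℂ) (r : ℝ) : Prop := 0 < r ∧ ∀ j k, j ≠ k → 2 * r ≤ ‖p j - p k‖

omit [DecidableEq J] in
theorem Sep.ne {r : ℝ} (h : Sep p r) {j k : J} (hjk : k ≠ j) {v : ℂ × ℂ} (hv : ‖v - p j‖ < r) :
    v - p k ≠ 0 := by
  intro h0
  have h1 := h.2 j k (Ne.symm hjk)
  have h2 : p j - p k = -(v - p j) := by
    rw [neg_sub]
    rw [sub_eq_zero] at h0
    rw [h0]
  rw [h2, norm_neg] at h1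
  linarith [h.1]

omit [DecidableEq J] in
theorem NE_disj {r : ℝ} (h : Sep p r) (j k : J) (hjk : j ≠ k) :
    Disjoint (NE p j r) (NE p k r) := by
  rw [Set.disjoint_iff]
  rintro b ⟨h1, h2⟩
  have h1' : ‖b.1.1 - p j‖ < r := h1
  have h2' : ‖b.1.1 - p k‖ < r := h2
  have h3 := h.2 j k hjk
  have h4 : p j - p k = -(b.1.1 - p j) + (b.1.1 - p k) := by abel
  have h5 := norm_add_le (-(b.1.1 - p j)) (b.1.1 - p k)
  rw [← h4, norm_neg] at h5
  linarith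

/-- direction vectors in the first chart -/
def dir0 (p : J → ℂ × ℂ) (j : J) (v : ℂ × ℂ) (s : ℂ) (k : J) : ℂ × ℂ :=
  if k = j then (1, s) else v - p k

/-- direction vectors in the second chart -/
def dir1 (p : J → ℂ × ℂ) (j : J) (v : ℂ × ℂ) (s : ℂ) (k : J) : ℂ × ℂ :=
  if k = j then (s, 1) else v - p k

theorem dir0_ne {r : ℝ} (h : Sep p r) {j : J} {v : ℂ × ℂ} (hv : ‖v - p j‖ < r) (s : ℂ) (k : J) :
    dir0 p j v s k ≠ 0 := by
  unfold dir0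
  split_ifs with hk
  · exact one_ne s
  · exact h.ne hk hv

theorem dir1_ne {r : ℝ} (h : Sep p r) {j : J} {v : ℂ × ℂ} (hv : ‖v - p j‖ < r) (s : ℂ) (k : J) :
    dir1 p j v s k ≠ 0 := by
  unfold dir1
  split_ifs with hk
  · exact ne_one s
  · exact h.ne hk hv

theorem dir0_rel {j : J} {w s : ℂ} (k : J) :
    ((p j + (w, w * s)).1 - (p k).1) * (dir0 p j (p j + (w, w * s)) s k).2 =
    ((p j + (w, w * s)).2 - (p k).2) * (dir0 p j (p j + (w, w * s)) s k).1 := by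
  unfold dir0
  split_ifs with hk
  · subst hk
    simp only [Prod.fst_add, Prod.snd_add]
    ring
  · simp only [Prod.fst_add, Prod.snd_add, Prod.snd_sub, Prod.fst_sub]
    ring

theorem dir1_rel {j : J} {w s : ℂ} (k : J) :
    ((p j + (w * s, w)).1 - (p k).1) * (dir1 p j (p j + (w * s, w)) s k).2 =
    ((p j + (w * s, w)).2 - (p k).2) * (dir1 p j (p j + (w * s, w)) s k).1 := by
  unfold dir1
  split_ifs with hk
  · subst hk
    simp only [Prod.fst_add, Prod.snd_add]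
    ring
  · simp only [Prod.fst_add, Prod.snd_add, Prod.snd_sub, Prod.fst_sub]
    ring

omit [DecidableEq J] in
theorem near0 {j : J} {r : ℝ} (q : Dr r) : ‖p j + (q.1.1, q.1.1 * q.1.2) - p j‖ < r := by
  rw [add_sub_cancel_left, norm_pair]
  exact q.2

omit [DecidableEq J] in
theorem near1 {j : J} {r : ℝ} (q : Dr r) : ‖p j + (q.1.1 * q.1.2, q.1.1) - p j‖ < r := by
  rw [add_sub_cancel_left, norm_pair]
  exact ⟨q.2.2, q.2.1⟩

/-- the first chart, as a map -/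
noncomputable def ch0 {r : ℝ} (h : Sep p r) (j : J) : C(Dr r, Bm p) :=
  ⟨fun q => mkB (p j + (q.1.1, q.1.1 * q.1.2)) (dir0 p j (p j + (q.1.1, q.1.1 * q.1.2)) q.1.2)
    (dir0_ne h (near0 q) _) dir0_rel, by
    refine mkB_cont (fun q : Dr r => p j + (q.1.1, q.1.1 * q.1.2))
      (fun q : Dr r => dir0 p j (p j + (q.1.1, q.1.1 * q.1.2)) q.1.2) (by fun_prop) ?_ _ _
    intro k
    unfold dir0
    split_ifs
    · fun_prop
    · fun_prop⟩

/-- the second chart, as a map -/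
noncomputable def ch1 {r : ℝ} (h : Sep p r) (j : J) : C(Dr r, Bm p) :=
  ⟨fun q => mkB (p j + (q.1.1 * q.1.2, q.1.1)) (dir1 p j (p j + (q.1.1 * q.1.2, q.1.1)) q.1.2)
    (dir1_ne h (near1 q) _) dir1_rel, by
    refine mkB_cont (fun q : Dr r => p j + (q.1.1 * q.1.2, q.1.1))
      (fun q : Dr r => dir1 p j (p j + (q.1.1 * q.1.2, q.1.1)) q.1.2) (by fun_prop) ?_ _ _
    intro k
    unfold dir1
    split_ifs
    · fun_prop
    · fun_prop⟩

theorem ch0_v {r : ℝ} (h : Sep p r) (j : J) (q : Dr r) :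
    (ch0 h j q).1.1 = p j + (q.1.1, q.1.1 * q.1.2) := rfl

theorem ch1_v {r : ℝ} (h : Sep p r) (j : J) (q : Dr r) :
    (ch1 h j q).1.1 = p j + (q.1.1 * q.1.2, q.1.1) := rfl

theorem ch0_l {r : ℝ} (h : Sep p r) (j : J) (q : Dr r) :
    (ch0 h j q).1.2 j = mkL (p j) (1, q.1.2) (one_ne _) := by
  change mkL (p j) (dir0 p j _ q.1.2 j) (dir0_ne h (near0 q) _ j) = _
  congr 1
  simp [dir0]

theorem ch1_l {r : ℝ} (h : Sep p r) (j : J) (q : Dr r) :
    (ch1 h j q).1.2 j = mkL (p j) (q.1.2, 1) (ne_one _) := by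
  change mkL (p j) (dir1 p j _ q.1.2 j) (dir1_ne h (near1 q) _ j) = _
  congr 1
  simp [dir1]

theorem ch0_mem {r : ℝ} (h : Sep p r) (j : J) (q : Dr r) : ch0 h j q ∈ O0 p j r := by
  refine ⟨near0 q, ?_⟩
  change dt e2 ((ch0 h j q).1.2 j) ≠ 0
  rw [ch0_l, e2_mkL]
  exact one_ne_zero

theorem ch1_mem {r : ℝ} (h : Sep p r) (j : J) (q : Dr r) : ch1 h j q ∈ O1 p j r := by
  refine ⟨near1 q, ?_⟩
  change dt e1 ((ch1 h j q).1.2 j) ≠ 0
  rw [ch1_l, e1_mkL]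
  exact one_ne_zero

theorem ch0_iff {r : ℝ} (h : Sep p r) (j : J) (q : Dr r) :
    dt e1 ((ch0 h j q).1.2 j) ≠ 0 ↔ q.1.2 ≠ 0 := by
  rw [ch0_l, e1_mkL]

omit [DecidableEq J] in
theorem psi0_mem {r : ℝ} {j : J} (b : O0 p j r) :
    (b.1.1.1.1 - (p j).1, sl (b.1.1.2 j)) ∈ Dr r := by
  have h1 : ‖b.1.1.1 - p j‖ < r := b.2.1
  have h2 := slope_rel b.1 j b.2.2
  rw [Prod.norm_def, max_lt_iff] at h1
  refine ⟨h1.1, ?_⟩
  change ‖(b.1.1.1.1 - (p j).1) * sl (b.1.1.2 j)‖ < r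
  rw [mul_comm, ← h2]
  exact h1.2

omit [DecidableEq J] in
theorem psi1_mem {r : ℝ} {j : J} (b : O1 p j r) :
    (b.1.1.1.2 - (p j).2, isl (b.1.1.2 j)) ∈ Dr r := by
  have h1 : ‖b.1.1.1 - p j‖ < r := b.2.1
  have h2 := islope_rel b.1 j b.2.2
  rw [Prod.norm_def, max_lt_iff] at h1
  refine ⟨h1.2, ?_⟩
  change ‖(b.1.1.1.2 - (p j).2) * isl (b.1.1.2 j)‖ < r
  rw [mul_comm, ← h2]
  exact h1.1

/-- inverse of the first chart -/
noncomputable def psi0 (p : J → ℂ × ℂ) (j : J) (r : ℝ) : C(O0 p j r, Dr r) :=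
  ⟨fun b => ⟨(b.1.1.1.1 - (p j).1, sl (b.1.1.2 j)), psi0_mem b⟩, by
    apply Continuous.subtype_mk
    refine Continuous.prodMk (by fun_prop) ?_
    exact (sl_contOn j).comp_continuous (by fun_prop) (fun b => b.2.2)⟩

/-- inverse of the second chart -/
noncomputable def psi1 (p : J → ℂ × ℂ) (j : J) (r : ℝ) : C(O1 p j r, Dr r) :=
  ⟨fun b => ⟨(b.1.1.1.2 - (p j).2, isl (b.1.1.2 j)), psi1_mem b⟩, by
    apply Continuous.subtype_mk
    refine Continuous.prodMk (by fun_prop) ?_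
    exact (isl_contOn j).comp_continuous (by fun_prop) (fun b => b.2.2)⟩

theorem ch0_psi0 {r : ℝ} (h : Sep p r) (j : J) (b : O0 p j r) :
    ch0 h j (psi0 p j r b) = b.1 := by
  have hv : b.1.1.1 = p j + (b.1.1.1.1 - (p j).1, (b.1.1.1.1 - (p j).1) * sl (b.1.1.2 j)) := by
    apply Prod.ext
    · simp
    · have := slope_rel b.1 j b.2.2
      simp only [Prod.snd_add]
      linear_combination this
  refine Bm_ext b.1 _ _ (dir0_ne h (near0 _) _) dir0_rel hv ?_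
  intro k
  by_cases hk : k = j
  · subst hk
    rw [eq_mkL_sl (b.1.2 k).1 b.2.2]
    congr 1
    simp [dir0, psi0]
  · rw [eq_mkL_of_ne (b.1.2 k).1 (b.1.2 k).2 (h.ne hk b.2.1)]
    congr 1
    simp only [dir0, if_neg hk]
    rw [hv]
    rfl

theorem ch1_psi1 {r : ℝ} (h : Sep p r) (j : J) (b : O1 p j r) :
    ch1 h j (psi1 p j r b) = b.1 := by
  have hv : b.1.1.1 = p j + ((b.1.1.1.2 - (p j).2) * isl (b.1.1.2 j), b.1.1.1.2 - (p j).2) := by
    apply Prod.ext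
    · have := islope_rel b.1 j b.2.2
      simp only [Prod.fst_add]
      linear_combination this
    · simp
  refine Bm_ext b.1 _ _ (dir1_ne h (near1 _) _) dir1_rel hv ?_
  intro k
  by_cases hk : k = j
  · subst hk
    rw [eq_mkL_isl (b.1.2 k).1 b.2.2]
    congr 1
    simp [dir1, psi1]
  · rw [eq_mkL_of_ne (b.1.2 k).1 (b.1.2 k).2 (h.ne hk b.2.1)]
    congr 1
    simp only [dir1, if_neg hk]
    rw [hv]
    rfl

theorem Dr_contr {r : ℝ} (hr : 0 < r) : (∀ n, Ac (Dr r) (n + 1)) ∧ Cn (Dr r) := by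
  apply contr_star
  · simp [Dr, hr]
  · rintro ⟨w, s⟩ ⟨h1, h2⟩ t h0 h1'
    have ht : ‖(t : ℂ)‖ ≤ 1 := by
      rw [Complex.norm_real, Real.norm_eq_abs, abs_of_nonneg h0]
      exact h1'
    refine ⟨?_, ?_⟩
    · change ‖(t : ℝ) • w‖ < r
      rw [Complex.real_smul, norm_mul]
      exact (mul_le_of_le_one_left (norm_nonneg _) ht).trans_lt h1
    · change ‖((t : ℝ) • w) * ((t : ℝ) • s)‖ < r
      rw [Complex.real_smul, Complex.real_smul]
      have e : (t : ℂ) * w * (t * s) = (t * t) * (w * s) := by ring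
      rw [e, norm_mul, norm_mul]
      have h3 : ‖(t : ℂ)‖ * ‖(t : ℂ)‖ ≤ 1 := mul_le_one₀ ht (norm_nonneg _) ht
      exact (mul_le_of_le_one_left (norm_nonneg _) h3).trans_lt h2

theorem O0_contr {r : ℝ} (h : Sep p r) (j : J) :
    (∀ n, AcO (O0 p j r) (n + 1)) ∧ CnO (O0 p j r) :=
  ⟨fun n => AcO_of_sec (ch0 h j) (ch0_mem h j) (psi0 p j r) (ch0_psi0 h j) ((Dr_contr h.1).1 n),
    CnO_of_sec (ch0 h j) (ch0_mem h j) (psi0 p j r) (ch0_psi0 h j) (Dr_contr h.1).2⟩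

theorem O1_contr {r : ℝ} (h : Sep p r) (j : J) :
    (∀ n, AcO (O1 p j r) (n + 1)) ∧ CnO (O1 p j r) :=
  ⟨fun n => AcO_of_sec (ch1 h j) (ch1_mem h j) (psi1 p j r) (ch1_psi1 h j) ((Dr_contr h.1).1 n),
    CnO_of_sec (ch1 h j) (ch1_mem h j) (psi1 p j r) (ch1_psi1 h j) (Dr_contr h.1).2⟩

/-- parameter domain of the overlap -/
def Sr (r : ℝ) : Set (ℂ × P0) := {q | ‖q.1‖ < r ∧ ‖q.1 * q.2.1‖ < r}

/-- the overlap -/
abbrev OT (p : J → ℂ × ℂ) (j : J) (r : ℝ) : Set (Bm p) := O0 p j r ∩ O1 p j r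

/-- parametrisation of the overlap -/
noncomputable def chT {r : ℝ} (h : Sep p r) (j : J) : C(Sr r, Bm p) :=
  (ch0 h j).comp ⟨fun q => ⟨(q.1.1, q.1.2.1), q.2⟩, by fun_prop⟩

theorem chT_mem {r : ℝ} (h : Sep p r) (j : J) (q : Sr r) : chT h j q ∈ OT p j r := by
  refine ⟨ch0_mem h j _, near0 _, ?_⟩
  exact (ch0_iff h j _).mpr q.1.2.2

omit [DecidableEq J] in
theorem sl_ne {r : ℝ} {j : J} (b : OT p j r) : sl (b.1.1.2 j) ≠ 0 := by
  rw [sl, neg_ne_zero]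
  exact div_ne_zero b.2.2.2 b.2.1.2

/-- inverse of the parametrisation of the overlap -/
noncomputable def psiT (p : J → ℂ × ℂ) (j : J) (r : ℝ) : C(OT p j r, Sr r) :=
  ⟨fun b => ⟨(b.1.1.1.1 - (p j).1, ⟨sl (b.1.1.2 j), sl_ne b⟩), psi0_mem ⟨b.1, b.2.1⟩⟩, by
    apply Continuous.subtype_mk
    refine Continuous.prodMk (by fun_prop) ?_
    apply Continuous.subtype_mk
    exact (sl_contOn j).comp_continuous (by fun_prop) (fun b => b.2.1.2)⟩

theorem chT_psiT {r : ℝ} (h : Sep p r) (j : J) (b : OT p j r) :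
    chT h j (psiT p j r b) = b.1 := ch0_psi0 h j ⟨b.1, b.2.1⟩

theorem psiT_chT {r : ℝ} (h : Sep p r) (j : J) (q : Sr r) :
    psiT p j r ⟨chT h j q, chT_mem h j q⟩ = q := by
  apply Subtype.ext
  apply Prod.ext
  · change (p j + (q.1.1, q.1.1 * q.1.2.1)).1 - (p j).1 = q.1.1
    simp
  · apply Subtype.ext
    change sl ((ch0 h j ⟨(q.1.1, q.1.2.1), q.2⟩).1.2 j) = q.1.2.1
    rw [ch0_l, sl_mkL]
    simp

/-- the slope, on the overlap -/
noncomputable def slT (p : J → ℂ × ℂ) (j : J) (r : ℝ) : C(OT p j r, P0) :=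
  ⟨fun b => ⟨sl (b.1.1.2 j), sl_ne b⟩, by
    apply Continuous.subtype_mk
    exact (sl_contOn j).comp_continuous (by fun_prop) (fun b => b.2.1.2)⟩

theorem Sr_star {r : ℝ} (q : ℂ × P0) (hq : q ∈ Sr r) (t : ℝ) (h0 : 0 ≤ t) (h1 : t ≤ 1) :
    (t • q.1, q.2) ∈ Sr r := by
  obtain ⟨h2, h3⟩ := hq
  have ht : ‖(t : ℂ)‖ ≤ 1 := by
    rw [Complex.norm_real, Real.norm_eq_abs, abs_of_nonneg h0]
    exact h1
  refine ⟨?_, ?_⟩
  · change ‖t • q.1‖ < r
    rw [Complex.real_smul, norm_mul]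
    exact (mul_le_of_le_one_left (norm_nonneg _) ht).trans_lt h2
  · change ‖(t • q.1) * q.2.1‖ < r
    rw [Complex.real_smul, mul_assoc, norm_mul]
    exact (mul_le_of_le_one_left (norm_nonneg _) ht).trans_lt h3

theorem Sr_zero {r : ℝ} (hr : 0 < r) (y : P0) : ((0 : ℂ), y) ∈ Sr r := by
  refine ⟨?_, ?_⟩
  · change ‖(0 : ℂ)‖ < r
    rwa [norm_zero]
  · change ‖(0 : ℂ) * y.1‖ < r
    rwa [zero_mul, norm_zero]

theorem HE_psiT {r : ℝ} (h : Sep p r) (j : J) : HE (psiT p j r) :=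
  HE_of_param (chT h j) (chT_mem h j) (psiT p j r) (chT_psiT h j) (psiT_chT h j)

theorem HE_Sr {r : ℝ} (hr : 0 < r) : HE (⟨fun p => p.1.2, by fun_prop⟩ : C(Sr r, P0)) :=
  HE_snd (Sr r) Sr_star (Sr_zero hr)

theorem HE_slT {r : ℝ} (h : Sep p r) (j : J) : HE (slT p j r) := by
  have h3 := HE.comp (HE_Sr h.1) (HE_psiT h j)
  have e : (⟨fun p => p.1.2, by fun_prop⟩ : C(Sr r, P0)).comp (psiT p j r) = slT p j r := by
    ext b
    rfl
  rw [e] at h3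
  exact h3

omit [DecidableEq J] in
theorem OT_sub (j : J) (r : ℝ) : OT p j r ⊆ NE p j r := fun _ h => h.1.1

omit [DecidableEq J] in
theorem O_cover (j : J) (r : ℝ) (b : Bm p) (hb : b ∈ NE p j r) : b ∈ O0 p j r ∨ b ∈ O1 p j r := by
  rcases V01 b j with h | h
  · exact Or.inl ⟨hb, h⟩
  · exact Or.inr ⟨hb, h⟩

theorem NE_one {r : ℝ} (h : Sep p r) (j : J) : AcO (NE p j r) 1 := by
  refine AcO_of_cover (O0_open j r) (O1_open j r) (O_cover j r) Set.inter_subset_left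
    Set.inter_subset_left ((O0_contr h j).1 0) ((O1_contr h j).1 0) ?_
  intro d hd _ h0
  exact CnO_of_Cn (Cn_of_HE (HE_slT h j) P0_Cn) d hd (h0 rfl)

theorem NE_three {r : ℝ} (h : Sep p r) (j : J) (n : ℕ) : AcO (NE p j r) (n + 3) := by
  refine AcO_of_cover (O0_open j r) (O1_open j r) (O_cover j r) Set.inter_subset_left
    Set.inter_subset_left ((O0_contr h j).1 (n + 2)) ((O1_contr h j).1 (n + 2)) ?_
  intro d hd hc _
  exact AcO_of_Ac (Ac_of_HE (HE_slT h j) (P0_Ac n)) d hd hc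

end Pool.Agent.Y209.Geo
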