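import Pool.Agent.Y209.Geo.Sph

/-! The spheres. -/

namespace Pool.Agent.Y209.Geo

open Pool.Agent.Y209.HB

/-- circle of radius `R` in the plane -/
noncomputable def crl (R : ℂ) : C(Circle, ℂ) := ⟨fun z => R * (z : ℂ), by fun_prop⟩

/-- inverted circle -/
noncomputable def cri (R : ℂ) : C(Circle, ℂ) := ⟨fun z => R⁻¹ * ((z⁻¹ : Circle) : ℂ), by fun_prop⟩

theorem Ac_C (n : ℕ) : Ac ℂ (n + 1) := by
  let H : C(ℂ × unitInterval, ℂ) := ⟨fun q => (1 - ((q.2 : ℝ) : ℂ)) * q.1, by fun_prop⟩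
  refine Ac_of_contr H 0 ?_ ?_ n
  · intro y
    change (1 - (((0 : unitInterval) : ℝ) : ℂ)) * y = y
    simp
  · intro y
    change (1 - (((1 : unitInterval) : ℝ) : ℂ)) * y = 0
    simp

/-- discs are acyclic -/
theorem AcO_disc (c : ℂ) {ρ : ℝ} (hρ : 0 < ρ) (n : ℕ) : AcO {s : ℂ | ‖s - c‖ < ρ} (n + 1) := by
  refine (contrO (fun q : ℂ × unitInterval => (1 - ((q.2 : ℝ) : ℂ)) * q.1 + ((q.2 : ℝ) : ℂ) * c)
    (Continuous.continuousOn (by fun_prop)) ?_ ?_ c ?_ ?_).1 n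
  · intro x hx t
    have hx' : ‖x - c‖ < ρ := hx
    change ‖(1 - ((t : ℝ) : ℂ)) * x + ((t : ℝ) : ℂ) * c - c‖ < ρ
    have e : (1 - ((t : ℝ) : ℂ)) * x + ((t : ℝ) : ℂ) * c - c = ((1 - (t : ℝ) : ℝ) : ℂ) * (x - c) := by
      push_cast; ring
    rw [e, norm_mul, Complex.norm_real, Real.norm_eq_abs,
      abs_of_nonneg (by linarith [t.2.2] : 0 ≤ 1 - (t : ℝ))]
    exact (mul_le_of_le_one_left (norm_nonneg _) (by linarith [t.2.1])).trans_lt hx'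
  · intro x _
    simp
  · intro x _
    simp
  · change ‖c - c‖ < ρ
    simpa using hρ

theorem exists_c0 (f : C(Circle, ℂ)) : ∃ c : Sing ℂ 2 →₀ ℚ, bdry ℂ 1 c = push f 1 g0 :=
  Ac_C 0 _ (push_mem_Cyc f 1 g0 g0_Cyc)

theorem exists_disc (f : C(Circle, ℂ)) (c : ℂ) {ρ : ℝ} (hρ : 0 < ρ) (hf : ∀ z, ‖f z - c‖ < ρ) :
    ∃ w ∈ sp {s : ℂ | ‖s - c‖ < ρ} 2, bdry ℂ 1 w = push f 1 g0 := by
  have h1 : push f 1 g0 ∈ sp {s : ℂ | ‖s - c‖ < ρ} 1 :=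
    push_mem_sp f (fun z _ => hf z) (mem_sp_univ g0)
  exact AcO_disc c hρ 0 _ h1 (push_mem_Cyc f 1 g0 g0_Cyc)

variable {J : Type} [DecidableEq J] {p : J → ℂ × ℂ}

theorem zero_mem_Dr {r : ℝ} (hr : 0 < r) (s : ℂ) : ((0 : ℂ), s) ∈ Dr r := by
  simp [Dr, hr]

/-- the exceptional curve, first affine chart -/
noncomputable def X0 {r : ℝ} (h : Sep p r) (j : J) : C(ℂ, Bm p) :=
  (ch0 h j).comp ⟨fun s => ⟨(0, s), zero_mem_Dr h.1 s⟩, by fun_prop⟩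

/-- the exceptional curve, second affine chart -/
noncomputable def X1 {r : ℝ} (h : Sep p r) (j : J) : C(ℂ, Bm p) :=
  (ch1 h j).comp ⟨fun s => ⟨(0, s), zero_mem_Dr h.1 s⟩, by fun_prop⟩

theorem X0_v {r : ℝ} (h : Sep p r) (j : J) (s : ℂ) : (X0 h j s).1.1 = p j := by
  change p j + (0, 0 * s) = p j
  simp

theorem X1_v {r : ℝ} (h : Sep p r) (j : J) (s : ℂ) : (X1 h j s).1.1 = p j := by
  change p j + (0 * s, 0) = p j
  simp

theorem X0_l {r : ℝ} (h : Sep p r) (j : J) (s : ℂ) :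
    (X0 h j s).1.2 j = mkL (p j) (1, s) (one_ne s) := ch0_l h j _

theorem X1_l {r : ℝ} (h : Sep p r) (j : J) (s : ℂ) :
    (X1 h j s).1.2 j = mkL (p j) (s, 1) (ne_one s) := ch1_l h j _

theorem Sep.ne' {r : ℝ} (h : Sep p r) {j k : J} (hjk : k ≠ j) : p j - p k ≠ 0 :=
  h.ne (v := p j) hjk (by simpa using h.1)

/-- the other coordinates on the exceptional curve -/
theorem other_l {r : ℝ} (h : Sep p r) {j k : J} (hjk : k ≠ j) (b : Bm p) (hb : b.1.1 = p j) :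
    b.1.2 k = mkL (p k) (p j - p k) (h.ne' hjk) := by
  have := eq_mkL_of_ne (b.2 k).1 (b.2 k).2 (by rw [hb]; exact h.ne' hjk)
  rw [this]
  congr 1
  rw [hb]

theorem E_ext {r : ℝ} (h : Sep p r) {j : J} {b b' : Bm p} (hb : b.1.1 = p j) (hb' : b'.1.1 = p j)
    (hj : b.1.2 j = b'.1.2 j) : b = b' := by
  apply Subtype.ext
  apply Prod.ext
  · rw [hb, hb']
  · funext k
    by_cases hk : k = j
    · subst hk; exact hj
    · rw [other_l h hk b hb, other_l h hk b' hb']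

theorem X01 {r : ℝ} (h : Sep p r) (j : J) (s : ℂ) (hs : s ≠ 0) : X0 h j s = X1 h j s⁻¹ := by
  apply E_ext h (X0_v h j s) (X1_v h j _)
  rw [X0_l, X1_l]
  have e : ((1, s) : ℂ × ℂ) = s • (s⁻¹, 1) := by
    simp [Prod.smul_mk, hs]
  have h1 : s • ((s⁻¹, 1) : ℂ × ℂ) ≠ 0 := by rw [← e]; exact one_ne s
  rw [← mkL_smul (p j) (s⁻¹, 1) (ne_one _) s h1]
  congr 1

theorem X0_mem {r : ℝ} (h : Sep p r) (j : J) (s : ℂ) : X0 h j s ∈ O0 p j r := ch0_mem h j _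

theorem X1_mem {r : ℝ} (h : Sep p r) (j : J) (s : ℂ) : X1 h j s ∈ O1 p j r := ch1_mem h j _

theorem X0_comp {r : ℝ} (h : Sep p r) (j : J) {R : ℂ} (hR : R ≠ 0) :
    (X0 h j).comp (crl R) = (X1 h j).comp (cri R) := by
  ext1 z
  change X0 h j (R * (z : ℂ)) = X1 h j (R⁻¹ * ((z⁻¹ : Circle) : ℂ))
  rw [X01 h j _ (mul_ne_zero hR (Circle.coe_ne_zero z)), mul_inv, Circle.coe_inv]

/-- the sphere -/
noncomputable def mu {r : ℝ} (h : Sep p r) (j : J) (c0 c1 : Sing ℂ 2 →₀ ℚ) :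
    Sing (Bm p) 2 →₀ ℚ := push (X0 h j) 2 c0 + push (X1 h j) 2 c1

variable {r : ℝ} (h : Sep p r) (j : J) {R : ℂ} {c0 c1 : Sing ℂ 2 →₀ ℚ}

theorem mu_bd (hR : R ≠ 0) (h0 : bdry ℂ 1 c0 = push (crl R) 1 g0)
    (h1 : bdry ℂ 1 c1 = - push (cri R) 1 g0) :
    bdry (Bm p) 1 (push (X0 h j) 2 c0) + bdry (Bm p) 1 (push (X1 h j) 2 c1) = 0 := by
  rw [bdry_push, bdry_push, h0, h1, map_neg, push_push, push_push, X0_comp h j hR, add_neg_cancel]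

theorem mu_Cyc (hR : R ≠ 0) (h0 : bdry ℂ 1 c0 = push (crl R) 1 g0)
    (h1 : bdry ℂ 1 c1 = - push (cri R) 1 g0) : mu h j c0 c1 ∈ Cyc (Bm p) 2 := by
  apply mem_Cyc_of_bdry
  rw [mu, map_add]
  exact mu_bd h j hR h0 h1

/-- the circle in the overlap -/
noncomputable def cT (hR : R ≠ 0) : C(Circle, OT p j r) :=
  ⟨fun z => ⟨X0 h j (R * (z : ℂ)), X0_mem h j _, by
    rw [X01 h j _ (mul_ne_zero hR (Circle.coe_ne_zero z))]
    exact X1_mem h j _⟩, by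
    apply Continuous.subtype_mk
    exact (X0 h j).continuous.comp (by fun_prop)⟩

theorem slT_cT (hR : R ≠ 0) : (slT p j r).comp (cT h j hR) = scl R hR := by
  ext z
  change sl ((X0 h j (R * (z : ℂ))).1.2 j) = R * (z : ℂ)
  rw [X0_l, sl_mkL]
  simp

theorem NE_two (hR : R ≠ 0) (h0 : bdry ℂ 1 c0 = push (crl R) 1 g0)
    (h1 : bdry ℂ 1 c1 = - push (cri R) 1 g0) {z : Sing (Bm p) 2 →₀ ℚ} (hz : z ∈ sp (NE p j r) 2)
    (hc : z ∈ Cyc (Bm p) 2) : ∃ k : ℚ, z - k • mu h j c0 c1 ∈ Bd (NE p j r) 2 := by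
  refine span_of_cover (O0_open j r) (O1_open j r) (O_cover j r) Set.inter_subset_left
    Set.inter_subset_left ((O0_contr h j).1 1) ((O1_contr h j).1 1)
    (push_mem_sp (X0 h j) (fun s _ => X0_mem h j s) (mem_sp_univ c0))
    (push_mem_sp (X1 h j) (fun s _ => X1_mem h j s) (mem_sp_univ c1))
    (mu_bd h j hR h0 h1) ?_ hz hc
  intro d hd hdc _
  have h2 := spanO_of_HE (HE_slT h j) (c := push (cT h j hR) 1 g0)
    (push_mem_Cyc _ _ _ g0_Cyc) P0_span (by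
      rw [push_push, slT_cT]
      exact scl_gP R hR) d hd hdc
  obtain ⟨k, hk⟩ := h2
  refine ⟨k, ?_⟩
  rw [bdry_push, h0, push_push]
  rw [push_push] at hk
  exact hk

end Pool.Agent.Y209.Geo
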