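import Pool.Agent.Y209.Geo.Sph2

/-! Tubes around strict transforms of lines. -/

namespace Pool.Agent.Y209.Geo

open Pool.Agent.Y209.HB

variable {J : Type} [DecidableEq J]

/-- a non-vertical line `y = m x + c`, with the marked points on it -/
structure Ln (p : J → ℂ × ℂ) where
  m : ℂ
  c : ℂ
  I : Finset J
  hI : ∀ j, j ∈ I ↔ (p j).2 = m * (p j).1 + c
  hne : I.Nonempty

variable {p : J → ℂ × ℂ} (a : Ln p)

namespace Ln

/-- product over the marked points -/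
noncomputable def Pr (t : ℂ) : ℂ := ∏ k ∈ a.I, (t - (p k).1)

/-- product over the marked points but one -/
noncomputable def Pe (j : J) (t : ℂ) : ℂ := ∏ k ∈ a.I.erase j, (t - (p k).1)

/-- interpolation weights -/
noncomputable def lam (j : J) : ℂ := (a.Pe j (p j).1)⁻¹


theorem Pr_eq {j : J} (hj : j ∈ a.I) (t : ℂ) : a.Pr t = (t - (p j).1) * a.Pe j t :=
  (Finset.mul_prod_erase a.I (fun k => t - (p k).1) hj).symm

omit [DecidableEq J] in
theorem injOn (hp : Function.Injective p) : Set.InjOn (fun k => (p k).1) (a.I : Set J) := by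
  intro j hj k hk hjk
  have h1 := (a.hI j).mp hj
  have h2 := (a.hI k).mp hk
  apply hp
  apply Prod.ext hjk
  have : (p j).1 = (p k).1 := hjk
  rw [h1, h2, this]


theorem Pe_ne (hp : Function.Injective p) {j : J} (hj : j ∈ a.I) : a.Pe j (p j).1 ≠ 0 := by
  apply Finset.prod_ne_zero_iff.mpr
  intro k hk
  rw [Finset.mem_erase] at hk
  rw [sub_ne_zero]
  intro h
  exact hk.1 (a.injOn hp hk.2 hj h.symm)


theorem lagrange (hp : Function.Injective p) (t : ℂ) : ∑ j ∈ a.I, a.lam j * a.Pe j t = 1 := by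
  have h := Lagrange.sum_basis (a.injOn hp) a.hne
  have h2 := congrArg (Polynomial.eval t) h
  rw [Polynomial.eval_finsetSum, Polynomial.eval_one] at h2
  rw [← h2]
  refine Finset.sum_congr rfl fun j _ => ?_
  rw [Lagrange.basis, Polynomial.eval_prod, lam, Pe, Pe, ← Finset.prod_inv_distrib,
    ← Finset.prod_mul_distrib]
  refine Finset.prod_congr rfl fun k _ => ?_
  simp [Lagrange.basisDivisor]


/-- the trick: cross products of compatible families -/
theorem cross {σ : J → ℂ} {x u : ℂ} (h : ∀ j ∈ a.I, (x - (p j).1) * σ j = u) {i j : J}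
    (hi : i ∈ a.I) (hj : j ∈ a.I) : σ j * a.Pe i x = σ i * a.Pe j x := by
  by_cases hij : i = j
  · rw [hij]
  · have e1 : a.Pe i x = (x - (p j).1) * ∏ k ∈ (a.I.erase i).erase j, (x - (p k).1) :=
      (Finset.mul_prod_erase _ (fun k => x - (p k).1)
        (Finset.mem_erase.mpr ⟨Ne.symm hij, hj⟩)).symm
    have e2 : a.Pe j x = (x - (p i).1) * ∏ k ∈ (a.I.erase j).erase i, (x - (p k).1) :=
      (Finset.mul_prod_erase _ (fun k => x - (p k).1)
        (Finset.mem_erase.mpr ⟨hij, hi⟩)).symm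
    rw [e1, e2, Finset.erase_right_comm]
    have h1 := h i hi
    have h2 := h j hj
    linear_combination (∏ k ∈ (a.I.erase j).erase i, (x - (p k).1)) * (h2 - h1)


theorem key {σ : J → ℂ} {x u : ℂ} (hp : Function.Injective p)
    (h : ∀ j ∈ a.I, (x - (p j).1) * σ j = u) {i : J} (hi : i ∈ a.I) :
    (∑ j ∈ a.I, a.lam j * σ j) * a.Pe i x = σ i := by
  rw [Finset.sum_mul]
  have : ∀ j ∈ a.I, a.lam j * σ j * a.Pe i x = σ i * (a.lam j * a.Pe j x) := by
    intro j hj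
    rw [mul_assoc, a.cross h hi hj]
    ring
  rw [Finset.sum_congr rfl this, ← Finset.mul_sum, a.lagrange hp, mul_one]

/-- the transverse coordinate -/
noncomputable def hf (b : Bm p) : ℂ := ∑ j ∈ a.I, a.lam j * (sl (b.1.2 j) - a.m)

/-- the equation of the line -/
def uf (b : Bm p) : ℂ := b.1.1.2 - (a.m * b.1.1.1 + a.c)

/-- the domain of the transverse coordinate -/
def W : Set (Bm p) := {b | ∀ j ∈ a.I, dt e2 (b.1.2 j) ≠ 0}

omit [DecidableEq J] in
theorem W_open : IsOpen a.W := by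
  have : a.W = ⋂ j ∈ a.I, {b : Bm p | dt e2 (b.1.2 j) ≠ 0} := by
    ext b; simp [W]
  rw [this]
  exact isOpen_biInter_finset fun j _ => V0_open j


theorem hf_contOn : ContinuousOn a.hf a.W := by
  unfold hf
  apply continuousOn_finsetSum
  intro j hj
  refine ContinuousOn.mul continuousOn_const (ContinuousOn.sub ?_ continuousOn_const)
  refine (sl_contOn j).mono ?_
  intro b hb
  exact hb j hj

omit [DecidableEq J] in
theorem u_rel {b : Bm p} (hb : b ∈ a.W) {j : J} (hj : j ∈ a.I) :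
    (b.1.1.1 - (p j).1) * (sl (b.1.2 j) - a.m) = a.uf b := by
  have h1 := slope_rel b j (hb j hj)
  have h2 := (a.hI j).mp hj
  unfold uf
  linear_combination (-1 : ℂ) * h1 - h2


theorem sl_eq (hp : Function.Injective p) {b : Bm p} (hb : b ∈ a.W) {i : J} (hi : i ∈ a.I) :
    sl (b.1.2 i) - a.m = a.hf b * a.Pe i b.1.1.1 :=
  (a.key hp (fun _ hj => a.u_rel hb hj) hi).symm


theorem uf_eq (hp : Function.Injective p) {b : Bm p} (hb : b ∈ a.W) :
    a.uf b = a.hf b * a.Pr b.1.1.1 := by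
  obtain ⟨i, hi⟩ := a.hne
  rw [a.Pr_eq hi, ← a.u_rel hb hi, a.sl_eq hp hb hi]
  ring

/-- weight of the tube -/
noncomputable def rho (t : ℂ) : ℝ := 1 + ‖a.Pr t‖ + ∑ j ∈ a.I, ‖a.Pe j t‖


theorem Pr_cont : Continuous a.Pr := by unfold Pr; fun_prop


theorem Pe_cont (j : J) : Continuous (a.Pe j) := by unfold Pe; fun_prop


theorem rho_cont : Continuous a.rho := by
  unfold rho
  have := a.Pr_cont
  have := a.Pe_cont
  fun_prop


theorem rho_pos (t : ℂ) : 0 < a.rho t := by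
  unfold rho
  have h1 : 0 ≤ ∑ j ∈ a.I, ‖a.Pe j t‖ := Finset.sum_nonneg fun _ _ => norm_nonneg _
  have h2 := norm_nonneg (a.Pr t)
  linarith


theorem Pr_le (t : ℂ) : ‖a.Pr t‖ ≤ a.rho t := by
  unfold rho
  have h1 : 0 ≤ ∑ j ∈ a.I, ‖a.Pe j t‖ := Finset.sum_nonneg fun _ _ => norm_nonneg _
  linarith


theorem Pe_le {j : J} (hj : j ∈ a.I) (t : ℂ) : ‖a.Pe j t‖ ≤ a.rho t := by
  unfold rho
  have h1 : ‖a.Pe j t‖ ≤ ∑ j ∈ a.I, ‖a.Pe j t‖ :=
    Finset.single_le_sum (f := fun j => ‖a.Pe j t‖) (fun _ _ => norm_nonneg _) hj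
  have h2 := norm_nonneg (a.Pr t)
  linarith

/-- the tube -/
def N (ε : ℝ) : Set (Bm p) := a.W ∩ {b | ‖a.hf b‖ * a.rho b.1.1.1 < ε}


theorem N_open (ε : ℝ) : IsOpen (a.N ε) := by
  have h : ContinuousOn (fun b : Bm p => ‖a.hf b‖ * a.rho b.1.1.1) a.W := by
    refine a.hf_contOn.norm.mul (Continuous.continuousOn ?_)
    exact a.rho_cont.comp (by fun_prop)
  exact h.isOpen_inter_preimage a.W_open (isOpen_Iio (a := ε))

/-- condition on the line at a marked point -/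
def em (m : ℂ) : Fin 3 → ℂ := ![0, 1, m]

theorem dt_em (m : ℂ) (ℓ : P2) : dt (em m) ℓ = dt e1 ℓ + m * dt e2 ℓ := by
  simp [dt, em, e1, e2, dotProduct, Fin.sum_univ_three]

/-- the strict transform of the line -/
def L : Set (Bm p) := {b | a.uf b = 0 ∧ ∀ j ∈ a.I, dt (em a.m) (b.1.2 j) = 0}

omit [DecidableEq J] in
theorem L_closed : IsClosed a.L := by
  have : a.L = {b | a.uf b = 0} ∩ ⋂ j ∈ a.I, {b : Bm p | dt (em a.m) (b.1.2 j) = 0} := by
    ext b; simp [L]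
  rw [this]
  refine IsClosed.inter ?_ (isClosed_biInter fun j _ => ?_)
  · apply isClosed_eq
    · unfold uf; fun_prop
    · fun_prop
  · have h := (isOpen_dt (em a.m)).preimage (f := fun b : Bm p => b.1.2 j) (by fun_prop)
    rw [← isClosed_compl_iff] at h
    convert h using 1
    ext b
    simp

omit [DecidableEq J] in
theorem L_sub_W : a.L ⊆ a.W := by
  rintro b ⟨_, hb⟩ j hj h0
  have h1 := hb j hj
  rw [dt_em, h0, mul_zero, add_zero] at h1
  rcases V01 b j with h | h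
  · exact h h0
  · exact h h1


theorem hf_L {b : Bm p} (hb : b ∈ a.L) : a.hf b = 0 := by
  unfold hf
  apply Finset.sum_eq_zero
  intro j hj
  have h1 := hb.2 j hj
  have h2 := a.L_sub_W hb j hj
  rw [dt_em] at h1
  have h3 : sl (b.1.2 j) = a.m := by
    rw [sl]
    field_simp
    linear_combination (-1 : ℂ) * h1
  rw [h3, sub_self, mul_zero]


theorem mem_L_iff (hp : Function.Injective p) {b : Bm p} (hb : b ∈ a.W) :
    b ∈ a.L ↔ a.hf b = 0 := by
  refine ⟨a.hf_L, fun h => ⟨?_, ?_⟩⟩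
  · rw [a.uf_eq hp hb, h, zero_mul]
  · intro j hj
    have h1 := a.sl_eq hp hb hj
    rw [h, zero_mul, sub_eq_zero, sl] at h1
    have h2 := hb j hj
    rw [dt_em, ← h1]
    field_simp
    ring


theorem L_sub_N {ε : ℝ} (hε : 0 < ε) : a.L ⊆ a.N ε := by
  intro b hb
  refine ⟨a.L_sub_W hb, ?_⟩
  change ‖a.hf b‖ * a.rho b.1.1.1 < ε
  rw [a.hf_L hb, norm_zero, zero_mul]
  exact hε


theorem N_sl (hp : Function.Injective p) {ε : ℝ} {b : Bm p} (hb : b ∈ a.N ε) {j : J}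
    (hj : j ∈ a.I) : ‖sl (b.1.2 j) - a.m‖ < ε := by
  rw [a.sl_eq hp hb.1 hj, norm_mul]
  exact (mul_le_mul_of_nonneg_left (a.Pe_le hj _) (norm_nonneg _)).trans_lt hb.2


theorem N_uf (hp : Function.Injective p) {ε : ℝ} {b : Bm p} (hb : b ∈ a.N ε) :
    ‖a.uf b‖ < ε := by
  rw [a.uf_eq hp hb.1, norm_mul]
  exact (mul_le_mul_of_nonneg_left (a.Pr_le _) (norm_nonneg _)).trans_lt hb.2

/-- smallness of the tube -/
def Sm (ε : ℝ) : Prop := 0 < ε ∧ ∀ j, j ∉ a.I → ε ≤ ‖(p j).2 - (a.m * (p j).1 + a.c)‖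

/-- the transverse coordinate of a parameter -/
noncomputable def hh (ε : ℝ) (q : ℂ × ℂ) : ℂ := ((ε / ((1 + ‖q.2‖) * a.rho q.1) : ℝ) : ℂ) * q.2


theorem hh_cont (ε : ℝ) : Continuous (a.hh ε) := by
  unfold hh
  have h1 := a.rho_cont
  have h2 : ∀ q : ℂ × ℂ, (1 + ‖q.2‖) * a.rho q.1 ≠ 0 := by
    intro q
    have := a.rho_pos q.1
    have := norm_nonneg q.2
    positivity
  refine Continuous.mul (Complex.continuous_ofReal.comp ?_) (by fun_prop)
  exact Continuous.div continuous_const (by fun_prop) h2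


theorem hh_lt {ε : ℝ} (hε : 0 < ε) (q : ℂ × ℂ) : ‖a.hh ε q‖ * a.rho q.1 < ε := by
  have h1 := a.rho_pos q.1
  have h2 := norm_nonneg q.2
  unfold hh
  rw [norm_mul, Complex.norm_real, Real.norm_eq_abs, abs_of_nonneg (by positivity)]
  have e : ε / ((1 + ‖q.2‖) * a.rho q.1) * ‖q.2‖ * a.rho q.1 = ε * (‖q.2‖ / (1 + ‖q.2‖)) := by
    field_simp
  rw [e]
  have h3 : ‖q.2‖ / (1 + ‖q.2‖) < 1 := by
    rw [div_lt_one (by positivity)]
    linarith
  calc ε * (‖q.2‖ / (1 + ‖q.2‖)) < ε * 1 := mul_lt_mul_of_pos_left h3 hε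
    _ = ε := mul_one ε

/-- the point of the plane with given coordinates -/
noncomputable def vv (ε : ℝ) (q : ℂ × ℂ) : ℂ × ℂ :=
  (q.1, a.m * q.1 + a.c + a.hh ε q * a.Pr q.1)

/-- directions -/
noncomputable def dd (ε : ℝ) (q : ℂ × ℂ) (j : J) : ℂ × ℂ :=
  if j ∈ a.I then (1, a.m + a.hh ε q * a.Pe j q.1) else a.vv ε q - p j


theorem vv_ne {ε : ℝ} (hε : a.Sm ε) (q : ℂ × ℂ) {j : J} (hj : j ∉ a.I) : a.vv ε q - p j ≠ 0 := by
  intro h
  rw [sub_eq_zero] at h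
  have h1 := hε.2 j hj
  rw [← h] at h1
  have h2 : (a.vv ε q).2 - (a.m * (a.vv ε q).1 + a.c) = a.hh ε q * a.Pr q.1 := by
    simp only [vv]; ring
  rw [h2, norm_mul] at h1
  have h3 := a.hh_lt hε.1 q
  have h4 := mul_le_mul_of_nonneg_left (a.Pr_le q.1) (norm_nonneg (a.hh ε q))
  linarith


theorem dd_ne {ε : ℝ} (hε : a.Sm ε) (q : ℂ × ℂ) (j : J) : a.dd ε q j ≠ 0 := by
  unfold dd
  split_ifs with hj
  · exact one_ne _
  · exact a.vv_ne hε q hj


theorem dd_rel {ε : ℝ} (q : ℂ × ℂ) (j : J) :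
    ((a.vv ε q).1 - (p j).1) * (a.dd ε q j).2 = ((a.vv ε q).2 - (p j).2) * (a.dd ε q j).1 := by
  unfold dd
  split_ifs with hj
  · have h1 := (a.hI j).mp hj
    simp only [vv, a.Pr_eq hj]
    rw [h1]
    ring
  · simp only [Prod.snd_sub, Prod.fst_sub]
    ring

/-- the parametrisation of the tube -/
noncomputable def Th {ε : ℝ} (hε : a.Sm ε) : C(ℂ × ℂ, Bm p) :=
  ⟨fun q => mkB (a.vv ε q) (a.dd ε q) (a.dd_ne hε q) (a.dd_rel q), by
    have h1 := a.hh_cont ε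
    have h2 := a.Pr_cont
    have h3 := a.Pe_cont
    have h4 : Continuous (a.vv ε) := by unfold vv; fun_prop
    refine mkB_cont (a.vv ε) (a.dd ε) h4 ?_ _ _
    intro j
    unfold dd
    split_ifs
    · fun_prop
    · fun_prop⟩


theorem Th_l {ε : ℝ} (hε : a.Sm ε) (q : ℂ × ℂ) {j : J} (hj : j ∈ a.I) :
    (a.Th hε q).1.2 j = mkL (p j) (1, a.m + a.hh ε q * a.Pe j q.1) (one_ne _) := by
  change mkL (p j) (a.dd ε q j) (a.dd_ne hε q j) = _
  congr 1
  simp [dd, hj]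


theorem Th_W {ε : ℝ} (hε : a.Sm ε) (q : ℂ × ℂ) : a.Th hε q ∈ a.W := by
  intro j hj
  rw [a.Th_l hε q hj, e2_mkL]
  exact one_ne_zero


theorem Th_hf (hp : Function.Injective p) {ε : ℝ} (hε : a.Sm ε) (q : ℂ × ℂ) :
    a.hf (a.Th hε q) = a.hh ε q := by
  unfold hf
  have : ∀ j ∈ a.I, a.lam j * (sl ((a.Th hε q).1.2 j) - a.m) =
      a.hh ε q * (a.lam j * a.Pe j q.1) := by
    intro j hj
    rw [a.Th_l hε q hj, sl_mkL]
    simp only [div_one]
    ring
  rw [Finset.sum_congr rfl this, ← Finset.mul_sum, a.lagrange hp, mul_one]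


theorem Th_N (hp : Function.Injective p) {ε : ℝ} (hε : a.Sm ε) (q : ℂ × ℂ) :
    a.Th hε q ∈ a.N ε := by
  refine ⟨a.Th_W hε q, ?_⟩
  change ‖a.hf (a.Th hε q)‖ * a.rho q.1 < ε
  rw [a.Th_hf hp]
  exact a.hh_lt hε.1 q

/-- the normalised transverse coordinate -/
noncomputable def wf (ε : ℝ) (b : Bm p) : ℂ := ((a.rho b.1.1.1 / ε : ℝ) : ℂ) * a.hf b


theorem norm_wf {ε : ℝ} (hε : 0 < ε) {b : Bm p} (hb : b ∈ a.N ε) : ‖a.wf ε b‖ < 1 := by
  have h1 := a.rho_pos b.1.1.1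
  unfold wf
  rw [norm_mul, Complex.norm_real, Real.norm_eq_abs, abs_of_nonneg (by positivity)]
  have h2 : ‖a.hf b‖ * a.rho b.1.1.1 < ε := hb.2
  rw [div_mul_eq_mul_div, div_lt_one hε]
  linarith

/-- the unbounded transverse coordinate -/
noncomputable def zf (ε : ℝ) (b : Bm p) : ℂ := ((1 / (1 - ‖a.wf ε b‖) : ℝ) : ℂ) * a.wf ε b


theorem wf_contOn (ε : ℝ) : ContinuousOn (a.wf ε) a.W := by
  unfold wf
  refine ContinuousOn.mul (Continuous.continuousOn ?_) a.hf_contOn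
  exact Complex.continuous_ofReal.comp ((a.rho_cont.comp (by fun_prop)).div_const _)


theorem zf_contOn {ε : ℝ} (hε : 0 < ε) : ContinuousOn (a.zf ε) (a.N ε) := by
  unfold zf
  have h := (a.wf_contOn ε).mono (fun b (hb : b ∈ a.N ε) => hb.1)
  refine ContinuousOn.mul ?_ h
  refine Complex.continuous_ofReal.comp_continuousOn ?_
  refine ContinuousOn.div continuousOn_const (continuousOn_const.sub h.norm) ?_
  intro b hb
  have := a.norm_wf hε hb
  linarith


theorem hh_zf {ε : ℝ} (hε : 0 < ε) {b : Bm p} (hb : b ∈ a.N ε) :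
    a.hh ε (b.1.1.1, a.zf ε b) = a.hf b := by
  have h1 := a.rho_pos b.1.1.1
  have h2 := a.norm_wf hε hb
  have h3 : 0 < 1 - ‖a.wf ε b‖ := by linarith
  have h4 : ‖a.zf ε b‖ = ‖a.wf ε b‖ / (1 - ‖a.wf ε b‖) := by
    unfold zf
    rw [norm_mul, Complex.norm_real, Real.norm_eq_abs, abs_of_nonneg (by positivity)]
    ring
  have h5 : 1 + ‖a.zf ε b‖ = 1 / (1 - ‖a.wf ε b‖) := by
    rw [h4]; field_simp; ring
  unfold hh
  simp only
  rw [h5]
  have h6 : ε / (1 / (1 - ‖a.wf ε b‖) * a.rho b.1.1.1) =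
      ε * (1 - ‖a.wf ε b‖) / a.rho b.1.1.1 := by field_simp
  rw [h6]
  have h7 : a.zf ε b = ((1 / (1 - ‖a.wf ε b‖) : ℝ) : ℂ) * a.wf ε b := rfl
  have h8 : a.wf ε b = ((a.rho b.1.1.1 / ε : ℝ) : ℂ) * a.hf b := rfl
  rw [h7, ← mul_assoc, ← Complex.ofReal_mul]
  have h9 : ε * (1 - ‖a.wf ε b‖) / a.rho b.1.1.1 * (1 / (1 - ‖a.wf ε b‖)) =
      ε / a.rho b.1.1.1 := by field_simp
  rw [h9]
  conv_lhs => rw [h8]
  rw [← mul_assoc, ← Complex.ofReal_mul]
  have h10 : ε / a.rho b.1.1.1 * (a.rho b.1.1.1 / ε) = 1 := by field_simp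
  rw [h10]
  simp


theorem Th_zf (hp : Function.Injective p) {ε : ℝ} (hε : a.Sm ε) {b : Bm p} (hb : b ∈ a.N ε) :
    a.Th hε (b.1.1.1, a.zf ε b) = b := by
  have h1 := a.hh_zf hε.1 hb
  have hv : b.1.1 = a.vv ε (b.1.1.1, a.zf ε b) := by
    apply Prod.ext
    · rfl
    · unfold vv
      rw [h1]
      have := a.uf_eq hp hb.1
      unfold uf at this
      simp only
      linear_combination this
  refine Bm_ext b _ _ (a.dd_ne hε _) (a.dd_rel _) hv ?_
  intro j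
  by_cases hj : j ∈ a.I
  · rw [eq_mkL_sl (b.2 j).1 (hb.1 j hj)]
    congr 1
    simp only [dd, if_pos hj]
    rw [h1]
    have := a.sl_eq hp hb.1 hj
    apply Prod.ext
    · rfl
    · simp only
      linear_combination this
  · rw [eq_mkL_of_ne (b.2 j).1 (b.2 j).2 (by
      rw [hv]; exact a.vv_ne hε _ hj)]
    congr 1
    simp only [dd, if_neg hj]
    rw [← hv]


theorem zf_Th (hp : Function.Injective p) {ε : ℝ} (hε : a.Sm ε) (q : ℂ × ℂ) :
    a.zf ε (a.Th hε q) = q.2 := by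
  have h0 := hε.1
  have h1 := a.rho_pos q.1
  have h2 := norm_nonneg q.2
  have e1 : a.wf ε (a.Th hε q) = ((1 / (1 + ‖q.2‖) : ℝ) : ℂ) * q.2 := by
    unfold wf
    rw [a.Th_hf hp]
    change ((a.rho q.1 / ε : ℝ) : ℂ) * (((ε / ((1 + ‖q.2‖) * a.rho q.1) : ℝ) : ℂ) * q.2) = _
    rw [← mul_assoc, ← Complex.ofReal_mul]
    congr 2
    field_simp
  unfold zf
  rw [e1, norm_mul, Complex.norm_real, Real.norm_eq_abs, abs_of_nonneg (by positivity),
    ← mul_assoc, ← Complex.ofReal_mul]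
  have e2 : 1 / (1 - 1 / (1 + ‖q.2‖) * ‖q.2‖) * (1 / (1 + ‖q.2‖)) = 1 := by
    have : 1 - 1 / (1 + ‖q.2‖) * ‖q.2‖ = 1 / (1 + ‖q.2‖) := by field_simp; ring
    rw [this]
    field_simp
  rw [e2]
  simp

end Ln

end Pool.Agent.Y209.Geo
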