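import Pool.Agent.Y209.Geo.Tube

/-! Homology of the tubes and intersection indices. -/

namespace Pool.Agent.Y209.Geo

open Pool.Agent.Y209.HB

theorem HE_snd' : HE (⟨Prod.snd, continuous_snd⟩ : C(ℂ × P0, P0)) := by
  refine HE_of_homotopyEquiv _ ⟨fun y => (0, y), by fun_prop⟩
    ⟨fun q => ((1 - ((q.2 : ℝ) : ℂ)) * q.1.1, q.1.2), by fun_prop⟩ ⟨fun q => q.1, by fun_prop⟩
    ?_ ?_ (fun _ => rfl) (fun _ => rfl)
  · intro x
    change ((1 - (((0 : unitInterval) : ℝ) : ℂ)) * x.1, x.2) = x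
    simp
  · intro x
    change ((1 - (((1 : unitInterval) : ℝ) : ℂ)) * x.1, x.2) = (0, x.2)
    simp

theorem Ac_CC (n : ℕ) : Ac (ℂ × ℂ) (n + 1) := by
  let H : C((ℂ × ℂ) × unitInterval, ℂ × ℂ) :=
    ⟨fun q => (1 - ((q.2 : ℝ) : ℂ)) • q.1, by fun_prop⟩
  refine Ac_of_contr H 0 ?_ ?_ n
  · intro y
    change (1 - (((0 : unitInterval) : ℝ) : ℂ)) • y = y
    simp
  · intro y
    change (1 - (((1 : unitInterval) : ℝ) : ℂ)) • y = 0
    simp

variable {J : Type} [DecidableEq J] {p : J → ℂ × ℂ} (a : Ln p)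

namespace Ln

/-- the punctured tube -/
abbrev T (ε : ℝ) : Set (Bm p) := a.Lᶜ ∩ a.N ε

theorem Th_L_iff (hp : Function.Injective p) {ε : ℝ} (hε : a.Sm ε) (q : ℂ × ℂ) :
    a.Th hε q ∈ a.L ↔ q.2 = 0 := by
  rw [a.mem_L_iff hp (a.Th_W hε q)]
  constructor
  · intro h
    have h1 := a.zf_Th hp hε q
    rw [← h1]
    unfold zf wf
    rw [h]
    simp
  · intro h
    rw [a.Th_hf hp]
    unfold hh
    rw [h, mul_zero]

theorem AcN (hp : Function.Injective p) {ε : ℝ} (hε : a.Sm ε) (n : ℕ) : AcO (a.N ε) (n + 1) := by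
  refine AcO_of_sec (a.Th hε) (a.Th_N hp hε)
    ⟨fun b => (b.1.1.1.1, a.zf ε b.1), ?_⟩ ?_ (Ac_CC n)
  · refine Continuous.prodMk (by fun_prop) ?_
    exact (a.zf_contOn hε.1).comp_continuous (by fun_prop) (fun b => b.2)
  · intro b
    exact a.Th_zf hp hε b.2

theorem zf_ne (hp : Function.Injective p) {ε : ℝ} (hε : a.Sm ε) (b : a.T ε) : a.zf ε b.1 ≠ 0 := by
  intro h
  apply b.2.1
  have h1 := a.Th_zf hp hε b.2.2
  rw [← h1, a.Th_L_iff hp hε]
  exact h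

/-- the inverse of the parametrisation of the punctured tube -/
noncomputable def psT (hp : Function.Injective p) {ε : ℝ} (hε : a.Sm ε) : C(a.T ε, ℂ × P0) :=
  ⟨fun b => (b.1.1.1.1, ⟨a.zf ε b.1, a.zf_ne hp hε b⟩), by
    refine Continuous.prodMk (by fun_prop) (Continuous.subtype_mk ?_ _)
    exact (a.zf_contOn hε.1).comp_continuous (by fun_prop) (fun b => b.2.2)⟩

/-- the retraction of the punctured tube -/
noncomputable def rT (hp : Function.Injective p) {ε : ℝ} (hε : a.Sm ε) : C(a.T ε, P0) :=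
  ⟨fun b => ⟨a.zf ε b.1, a.zf_ne hp hε b⟩, by
    refine Continuous.subtype_mk ?_ _
    exact (a.zf_contOn hε.1).comp_continuous (by fun_prop) (fun b => b.2.2)⟩

theorem HE_rT (hp : Function.Injective p) {ε : ℝ} (hε : a.Sm ε) : HE (a.rT hp hε) := by
  let φ : C(ℂ × P0, Bm p) := (a.Th hε).comp ⟨fun q => (q.1, q.2.1), by fun_prop⟩
  have hφ : ∀ q, φ q ∈ a.T ε := by
    intro q
    refine ⟨?_, a.Th_N hp hε _⟩
    intro h
    exact q.2.2 ((a.Th_L_iff hp hε _).mp h)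
  have h1 : HE (a.psT hp hε) := by
    refine HE_of_param φ hφ (a.psT hp hε) ?_ ?_
    · intro b
      exact a.Th_zf hp hε b.2.2
    · intro q
      apply Prod.ext
      · rfl
      · apply Subtype.ext
        exact a.zf_Th hp hε _
  have h2 := HE.comp HE_snd' h1
  have e : (⟨Prod.snd, continuous_snd⟩ : C(ℂ × P0, P0)).comp (a.psT hp hε) = a.rT hp hε := by
    ext b
    rfl
  rw [e] at h2
  exact h2

/-- the meridian, inside the punctured tube -/
noncomputable def mT (hp : Function.Injective p) {ε : ℝ} (hε : a.Sm ε) : C(Circle, a.T ε) :=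
  ⟨fun z => ⟨a.Th hε (0, (z : ℂ)), by
    refine ⟨?_, a.Th_N hp hε _⟩
    intro h
    exact Circle.coe_ne_zero z ((a.Th_L_iff hp hε _).mp h)⟩, by
    apply Continuous.subtype_mk
    exact (a.Th hε).continuous.comp (by fun_prop)⟩

theorem rT_mT (hp : Function.Injective p) {ε : ℝ} (hε : a.Sm ε) :
    (a.rT hp hε).comp (a.mT hp hε) = cP := by
  ext z
  exact a.zf_Th hp hε _

/-- the meridian cycle -/
noncomputable def gg (hp : Function.Injective p) {ε : ℝ} (hε : a.Sm ε) : Sing (Bm p) 1 →₀ ℚ :=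
  push (sub (a.T ε)) 1 (push (a.mT hp hε) 1 g0)

theorem AcT (hp : Function.Injective p) {ε : ℝ} (hε : a.Sm ε) (n : ℕ) : AcO (a.T ε) (n + 2) :=
  AcO_of_Ac (Ac_of_HE (a.HE_rT hp hε) (P0_Ac n))

theorem spT (hp : Function.Injective p) {ε : ℝ} (hε : a.Sm ε) :
    ∀ z ∈ sp (a.T ε) 1, z ∈ Cyc (Bm p) 1 → ∃ k : ℚ, z - k • a.gg hp hε ∈ Bd (a.T ε) 1 := by
  refine spanO_of_HE (a.HE_rT hp hε) (push_mem_Cyc _ _ _ g0_Cyc) P0_span ?_
  rw [push_push, rT_mT]
  rw [show push cP 1 g0 = gP from rfl, sub_self]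
  exact Submodule.zero_mem _

theorem gg_ne (hp : Function.Injective p) {ε : ℝ} (hε : a.Sm ε) :
    a.gg hp hε ∉ Bd (a.T ε) 1 := by
  intro h
  have h1 := mem_Bdy_of_push_sub h
  have h2 := push_mem_Bdy (a.rT hp hε) 1 _ h1
  rw [push_push, rT_mT] at h2
  exact P0_ne h2

/-- loops in the punctured tube with linear transverse coordinate are meridians -/
theorem loop_eq (hp : Function.Injective p) {ε : ℝ} (hε : a.Sm ε) (f : C(Circle, Bm p))
    (hf : ∀ z, f z ∈ a.T ε) {κ : ℂ} (hκ : κ ≠ 0) (h : ∀ z, a.zf ε (f z) = κ * (z : ℂ)) :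
    push f 1 g0 - a.gg hp hε ∈ Bd (a.T ε) 1 := by
  let f' : C(Circle, a.T ε) := ⟨fun z => ⟨f z, hf z⟩, by fun_prop⟩
  have h1 : (a.rT hp hε).comp f' = scl κ hκ := by
    ext z
    exact h z
  have h2 : push (a.rT hp hε) 1 (push f' 1 g0 - push (a.mT hp hε) 1 g0) ∈ Bdy P0 1 := by
    rw [map_sub, push_push, push_push, h1, rT_mT]
    exact scl_gP κ hκ
  have h3 := ((a.HE_rT hp hε) 1).1 _ (Submodule.sub_mem _ (push_mem_Cyc _ _ _ g0_Cyc)
    (push_mem_Cyc _ _ _ g0_Cyc)) h2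
  have h4 := push_sub_mem_Bd h3
  rw [map_sub, push_push] at h4
  exact h4

variable {r : ℝ} (h : Sep p r)

include h in
theorem E_W {b : Bm p} {j : J} (hj : j ∈ a.I) (hb : b.1.1 = p j) (hb2 : dt e2 (b.1.2 j) ≠ 0)
    (hp : Function.Injective p) : b ∈ a.W := by
  intro k hk
  by_cases hkj : k = j
  · subst hkj; exact hb2
  · rw [other_l h hkj b hb, e2_mkL]
    rw [Prod.fst_sub, sub_ne_zero]
    intro h1
    exact hkj (a.injOn hp hk hj h1.symm)

include h in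
theorem E_hf {b : Bm p} {j : J} (hj : j ∈ a.I) (hb : b.1.1 = p j)
    (hp : Function.Injective p) : a.hf b = a.lam j * (sl (b.1.2 j) - a.m) := by
  unfold hf
  refine Finset.sum_eq_single_of_mem j hj ?_
  intro k hk hkj
  rw [other_l h hkj b hb, sl_mkL]
  have h1 := (a.hI k).mp hk
  have h2 := (a.hI j).mp hj
  have h3 : (p j).1 - (p k).1 ≠ 0 := by
    rw [sub_ne_zero]
    intro h1
    exact hkj (a.injOn hp hk hj h1.symm)
  have h4 : (p j - p k).2 / (p j - p k).1 = a.m := by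
    rw [Prod.snd_sub, Prod.fst_sub, h1, h2]
    field_simp
    ring
  rw [h4, sub_self, mul_zero]

theorem X0_W (hp : Function.Injective p) {j : J} (hj : j ∈ a.I) (s : ℂ) : X0 h j s ∈ a.W := by
  refine a.E_W h hj (X0_v h j s) ?_ hp
  rw [X0_l, e2_mkL]
  exact one_ne_zero

theorem X0_hf (hp : Function.Injective p) {j : J} (hj : j ∈ a.I) (s : ℂ) :
    a.hf (X0 h j s) = a.lam j * (s - a.m) := by
  rw [a.E_hf h hj (X0_v h j s) hp, X0_l, sl_mkL]
  simp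

theorem lam_ne (hp : Function.Injective p) {j : J} (hj : j ∈ a.I) : a.lam j ≠ 0 :=
  inv_ne_zero (a.Pe_ne hp hj)

theorem X0_L_iff (hp : Function.Injective p) {j : J} (hj : j ∈ a.I) (s : ℂ) :
    X0 h j s ∈ a.L ↔ s = a.m := by
  rw [a.mem_L_iff hp (a.X0_W h hp hj s), a.X0_hf h hp hj, mul_eq_zero, sub_eq_zero]
  exact or_iff_right (a.lam_ne hp hj)

theorem X1_not_L {j : J} (hj : j ∈ a.I) {s : ℂ} (hs : ‖a.m * s‖ < 1) : X1 h j s ∉ a.L := by
  intro hL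
  have h1 := hL.2 j hj
  rw [X1_l, mkL, dt_mk_eq] at h1
  have h2 : em a.m ⬝ᵥ lineVec (p j) (s, 1) = 1 - a.m * s := by
    simp [em, lineVec, dotProduct, Fin.sum_univ_three]
    ring
  rw [h2, sub_eq_zero] at h1
  rw [← h1, norm_one] at hs
  exact lt_irrefl _ hs

omit [DecidableEq J] in
theorem E_not_L {j : J} (hj : j ∉ a.I) {b : Bm p} (hb : b.1.1 = p j) : b ∉ a.L := by
  intro hL
  apply hj
  rw [a.hI]
  have h1 := hL.1
  unfold uf at h1
  rw [hb, sub_eq_zero] at h1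
  exact h1

variable {c0 c1 : Sing ℂ 2 →₀ ℚ}

/-- index zero -/
theorem idx_zero {ε : ℝ} {g : Sing (Bm p) 1 →₀ ℚ} {j : J} (hj : j ∉ a.I) :
    Idx a.L (a.N ε) g (mu h j c0 c1) 0 := by
  apply Idx.of_sp
  apply Submodule.add_mem
  · exact push_mem_sp (X0 h j) (fun s _ => a.E_not_L hj (X0_v h j s)) (mem_sp_univ c0)
  · exact push_mem_sp (X1 h j) (fun s _ => a.E_not_L hj (X1_v h j s)) (mem_sp_univ c1)

/-- index one -/
theorem idx_one (hp : Function.Injective p) {ε : ℝ} (hε : a.Sm ε) {j : J} (hj : j ∈ a.I) {K : ℝ}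
    (hK : 0 < K) (hmK : ‖a.m‖ ≤ K) {R : ℝ} (hKR : ‖a.m‖ < R)
    (h0 : bdry ℂ 1 c0 = push (crl (R : ℂ)) 1 g0) (h1 : c1 ∈ sp {s : ℂ | ‖s - 0‖ < 1 / K} 2) :
    Idx a.L (a.N ε) (a.gg hp hε) (mu h j c0 c1) 1 := by
  have hlam := a.lam_ne hp hj
  have hrho := a.rho_pos (p j).1
  have hlp : 0 < ‖a.lam j‖ := norm_pos_iff.mpr hlam
  -- radius of the disc
  set ρ : ℝ := ε / (‖a.lam j‖ * a.rho (p j).1) with hρ
  have hρ0 : 0 < ρ := div_pos hε.1 (by positivity)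
  have hdisc : ∀ s : ℂ, ‖s - a.m‖ < ρ → X0 h j s ∈ a.N ε := by
    intro s hs
    refine ⟨a.X0_W h hp hj s, ?_⟩
    change ‖a.hf (X0 h j s)‖ * a.rho (X0 h j s).1.1.1 < ε
    rw [a.X0_hf h hp hj, X0_v, norm_mul]
    rw [hρ, lt_div_iff₀ (by positivity)] at hs
    linarith
  -- small circle
  have hδn : ‖((ρ / 2 : ℝ) : ℂ)‖ = ρ / 2 := by
    rw [Complex.norm_real, Real.norm_eq_abs, abs_of_pos (by positivity)]
  have hδ0 : ((ρ / 2 : ℝ) : ℂ) ≠ 0 := by
    intro h2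
    rw [h2, norm_zero] at hδn
    linarith
  let f : C(Circle, ℂ) := ⟨fun z => a.m + ((ρ / 2 : ℝ) : ℂ) * (z : ℂ), by fun_prop⟩
  have hfd : ∀ z, ‖f z - a.m‖ < ρ := by
    intro z
    change ‖a.m + ((ρ / 2 : ℝ) : ℂ) * (z : ℂ) - a.m‖ < ρ
    rw [add_sub_cancel_left, norm_mul, Circle.norm_coe, mul_one, hδn]
    linarith
  obtain ⟨w, hw, hw1⟩ := exists_disc f a.m hρ0 hfd
  -- the big circle is homologous to the small one away from the point `m`
  let H : C(Circle × unitInterval, ℂ) :=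
    ⟨fun q => (1 - ((q.2 : ℝ) : ℂ)) * ((R : ℂ) * (q.1 : ℂ)) +
      ((q.2 : ℝ) : ℂ) * (a.m + ((ρ / 2 : ℝ) : ℂ) * (q.1 : ℂ)), by fun_prop⟩
  have hH : ∀ q, H q ∈ {s : ℂ | s ≠ a.m} := by
    rintro ⟨z, t⟩ hq
    have hq' : (1 - ((t : ℝ) : ℂ)) * ((R : ℂ) * (z : ℂ)) +
      ((t : ℝ) : ℂ) * (a.m + ((ρ / 2 : ℝ) : ℂ) * (z : ℂ)) = a.m := hq
    have e1 : (((1 - (t : ℝ)) * R + t * (ρ / 2) : ℝ) : ℂ) * (z : ℂ) =
        ((1 - (t : ℝ) : ℝ) : ℂ) * a.m := by
      push_cast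
      push_cast at hq'
      linear_combination hq'
    have e2 := congrArg norm e1
    have ht0 := t.2.1
    have ht1 : 0 ≤ 1 - (t : ℝ) := by linarith [t.2.2]
    have hR0 : 0 < R := lt_of_le_of_lt (norm_nonneg _) hKR
    rw [norm_mul, norm_mul, Circle.norm_coe, mul_one, Complex.norm_real, Complex.norm_real,
      Real.norm_eq_abs, Real.norm_eq_abs, abs_of_nonneg ht1, abs_of_nonneg (by positivity)] at e2
    have e3 : (1 - (t : ℝ)) * ‖a.m‖ ≤ (1 - (t : ℝ)) * R :=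
      mul_le_mul_of_nonneg_left hKR.le ht1
    have e4 : (t : ℝ) * (ρ / 2) = 0 := by
      have : 0 ≤ (t : ℝ) * (ρ / 2) := by positivity
      linarith
    have e5 : (t : ℝ) = 0 := by
      rcases mul_eq_zero.mp e4 with h5 | h5
      · exact h5
      · linarith
    rw [e5] at e2
    linarith
  have hb := htpyO (crl (R : ℂ)) f H hH (by
    intro z
    change (1 - (((0 : unitInterval) : ℝ) : ℂ)) * ((R : ℂ) * (z : ℂ)) +
      (((0 : unitInterval) : ℝ) : ℂ) * (a.m + ((ρ / 2 : ℝ) : ℂ) * (z : ℂ)) = (R : ℂ) * (z : ℂ)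
    simp) (by
    intro z
    change (1 - (((1 : unitInterval) : ℝ) : ℂ)) * ((R : ℂ) * (z : ℂ)) +
      (((1 : unitInterval) : ℝ) : ℂ) * (a.m + ((ρ / 2 : ℝ) : ℂ) * (z : ℂ)) =
      a.m + ((ρ / 2 : ℝ) : ℂ) * (z : ℂ)
    simp) 1 g0_Cyc
  obtain ⟨e, he, he1⟩ := hb
  -- the cap is a boundary plus the disc
  have hcyc : c0 + e - w ∈ Bdy ℂ 2 := by
    apply Ac_C 1
    apply mem_Cyc_of_bdry
    rw [map_sub, map_add, h0, he1, hw1]
    abel
  rw [← Bd_univ] at hcyc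
  have hcyc' := push_mem_Bd (X0 h j) (O' := Set.univ) (fun _ _ => trivial) hcyc
  rw [Bd_univ] at hcyc'
  refine ⟨- push (X0 h j) 2 e + push (X1 h j) 2 c1, ?_, push (X0 h j) 2 w, ?_, ?_, ?_⟩
  · apply Submodule.add_mem
    · apply Submodule.neg_mem
      refine push_mem_sp (X0 h j) ?_ he
      intro s hs hL
      exact hs ((a.X0_L_iff h hp hj s).mp hL)
    · refine push_mem_sp (X1 h j) ?_ h1
      intro s hs
      have hs' : ‖s - 0‖ < 1 / K := hs
      rw [sub_zero, lt_div_iff₀ hK] at hs'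
      apply a.X1_not_L h hj
      rw [norm_mul]
      have := mul_le_mul_of_nonneg_right hmK (norm_nonneg s)
      linarith
  · refine push_mem_sp (X0 h j) ?_ hw
    intro s hs
    exact hdisc s hs
  · have e6 : mu h j c0 c1 - (-push (X0 h j) 2 e + push (X1 h j) 2 c1 + push (X0 h j) 2 w) =
        push (X0 h j) 2 (c0 + e - w) := by
      rw [mu, map_sub, map_add]
      abel
    rw [e6]
    exact hcyc'
  · rw [bdry_push, hw1, push_push, one_smul]
    have hκ : ((a.rho (p j).1 / ε : ℝ) : ℂ) * (a.lam j * ((ρ / 2 : ℝ) : ℂ)) ≠ 0 := by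
      refine mul_ne_zero ?_ (mul_ne_zero hlam hδ0)
      have : a.rho (p j).1 / ε ≠ 0 := (div_pos hrho hε.1).ne'
      exact_mod_cast this
    set κ : ℂ := ((a.rho (p j).1 / ε : ℝ) : ℂ) * (a.lam j * ((ρ / 2 : ℝ) : ℂ)) with hκd
    have hκn : ‖κ‖ = 1 / 2 := by
      rw [hκd, norm_mul, norm_mul, hδn, Complex.norm_real, Real.norm_eq_abs,
        abs_of_pos (div_pos hrho hε.1), hρ]
      have := hε.1
      field_simp
    have hw2 : ∀ z : Circle, a.wf ε (X0 h j (f z)) = κ * (z : ℂ) := by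
      intro z
      unfold wf
      rw [a.X0_hf h hp hj, X0_v]
      change _ * (a.lam j * (a.m + ((ρ / 2 : ℝ) : ℂ) * (z : ℂ) - a.m)) = _
      rw [hκd]
      ring
    have hκ2 : (((1 / (1 - ‖κ‖) : ℝ)) : ℂ) * κ ≠ 0 := by
      refine mul_ne_zero ?_ hκ
      rw [hκn]
      norm_num
    refine a.loop_eq hp hε ((X0 h j).comp f) ?_ hκ2 ?_
    · intro z
      refine ⟨?_, hdisc _ (hfd z)⟩
      intro hL
      have h5 := (a.X0_L_iff h hp hj _).mp hL
      have h6 : a.m + ((ρ / 2 : ℝ) : ℂ) * (z : ℂ) = a.m := h5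
      have h7 : ((ρ / 2 : ℝ) : ℂ) * (z : ℂ) = 0 := by linear_combination h6
      exact mul_ne_zero hδ0 (Circle.coe_ne_zero z) h7
    · intro z
      change a.zf ε (X0 h j (f z)) = _
      unfold zf
      rw [hw2, norm_mul, Circle.norm_coe, mul_one]
      ring

end Ln

end Pool.Agent.Y209.Geo
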